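import Mathlib

/-!
# Exponential bounds for the coefficients of power series
-/

set_option autoImplicit false

namespace Pool.Agent.H48.TP

open PowerSeries Finset

/-- coefficients up to `L` bounded by `B * c ^ l / l!` -/
def Bd (L : ℕ) (B c : ℝ) (f : PowerSeries ℝ) : Prop :=
  ∀ l, l ≤ L → |coeff l f| ≤ B * (c ^ l / (l.factorial : ℝ))

theorem binom (c d : ℝ) (l : ℕ) : ∑ p ∈ antidiagonal l,
    (c ^ p.1 / (p.1.factorial : ℝ)) * (d ^ p.2 / (p.2.factorial : ℝ)) =
      (c + d) ^ l / (l.factorial : ℝ) := by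
  rw [(Commute.all c d).add_pow', Finset.sum_div]
  refine Finset.sum_congr rfl fun p hp => ?_
  rw [HasAntidiagonal.mem_antidiagonal] at hp
  obtain ⟨i, j⟩ := p
  simp only at hp ⊢
  subst hp
  have h1 : (i.factorial : ℝ) ≠ 0 := by exact_mod_cast i.factorial_ne_zero
  have h2 : (j.factorial : ℝ) ≠ 0 := by exact_mod_cast j.factorial_ne_zero
  have h3 : ((i + j).factorial : ℝ) ≠ 0 := by exact_mod_cast (i + j).factorial_ne_zero
  have h4 : (((i + j).choose i : ℕ) : ℝ) * i.factorial * j.factorial = (i + j).factorial := by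
    rw [Nat.choose_symm_add]
    exact_mod_cast Nat.add_choose_mul_factorial_mul_factorial i j
  rw [nsmul_eq_mul]
  field_simp
  rw [← h4]; ring

theorem Bd.mul {L : ℕ} {B B' c c' : ℝ} {f g : PowerSeries ℝ} (hB : 0 ≤ B) (hc : 0 ≤ c)
    (hf : Bd L B c f) (hg : Bd L B' c' g) : Bd L (B * B') (c + c') (f * g) := by
  intro l hl
  rw [PowerSeries.coeff_mul, ← binom, Finset.mul_sum]
  refine (Finset.abs_sum_le_sum_abs _ _).trans (Finset.sum_le_sum fun p hp => ?_)
  rw [HasAntidiagonal.mem_antidiagonal] at hp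
  have h1 := hf p.1 (by omega)
  have h2 := hg p.2 (by omega)
  rw [abs_mul]
  calc |coeff p.1 f| * |coeff p.2 g| ≤
      (B * (c ^ p.1 / (p.1.factorial : ℝ))) * (B' * (c' ^ p.2 / (p.2.factorial : ℝ))) :=
        mul_le_mul h1 h2 (abs_nonneg _) (by positivity)
    _ = _ := by ring

theorem Bd.one (L : ℕ) : Bd L 1 0 1 := by
  intro l _
  rw [PowerSeries.coeff_one]
  split_ifs with h
  · subst h; simp
  · simp [h]

theorem Bd.prod {L : ℕ} {ι : Type*} [DecidableEq ι] (s : Finset ι) (A : ι → ℝ) (c : ι → ℝ)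
    (f : ι → PowerSeries ℝ)
    (hA : ∀ i ∈ s, 0 ≤ A i) (hc : ∀ i ∈ s, 0 ≤ c i) (h : ∀ i ∈ s, Bd L (A i) (c i) (f i)) :
    Bd L (∏ i ∈ s, A i) (∑ i ∈ s, c i) (∏ i ∈ s, f i) := by
  induction s using Finset.induction_on with
  | empty => simpa using Bd.one L
  | insert i s hi ih =>
    rw [Finset.prod_insert hi, Finset.sum_insert hi, Finset.prod_insert hi]
    exact Bd.mul (hA i (mem_insert_self i s)) (hc i (mem_insert_self i s))
      (h i (mem_insert_self i s))
      (ih (fun j hj => hA j (mem_insert_of_mem hj)) (fun j hj => hc j (mem_insert_of_mem hj))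
        (fun j hj => h j (mem_insert_of_mem hj)))

theorem Bd.mono {L L' : ℕ} {B c B' c' : ℝ} {f : PowerSeries ℝ} (hL : L' ≤ L) (hc0 : 0 ≤ c)
    (hBB : B ≤ B') (hB' : 0 ≤ B') (hc : c ≤ c') (h : Bd L B c f) : Bd L' B' c' f := by
  intro l hl
  refine (h l (hl.trans hL)).trans ?_
  have h1 : c ^ l / (l.factorial : ℝ) ≤ c' ^ l / (l.factorial : ℝ) := by gcongr
  have h2 : 0 ≤ c ^ l / (l.factorial : ℝ) := by positivity
  calc B * (c ^ l / (l.factorial : ℝ)) ≤ B' * (c ^ l / (l.factorial : ℝ)) :=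
        mul_le_mul_of_nonneg_right hBB h2
    _ ≤ _ := mul_le_mul_of_nonneg_left h1 hB'

theorem Bd.one_sub (L : ℕ) : Bd L 1 1 (1 - X) := by
  intro l _
  rw [map_sub, PowerSeries.coeff_one, PowerSeries.coeff_X]
  rcases l with _ | l
  · simp
  · rcases l with _ | l
    · simp
    · rw [if_neg (by omega), if_neg (by omega), sub_zero, abs_zero]
      positivity

theorem Bd.one_sub_pow (L m : ℕ) : Bd L 1 m ((1 - X) ^ m) := by
  have := Bd.prod (L := L) (Finset.range m) (fun _ => (1 : ℝ)) (fun _ => (1 : ℝ))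
    (fun _ => (1 - X : PowerSeries ℝ)) (fun _ _ => zero_le_one) (fun _ _ => zero_le_one)
    (fun _ _ => Bd.one_sub L)
  simpa using this

theorem coeff_zero_one_sub_pow (m : ℕ) : coeff 0 ((1 - X : PowerSeries ℝ) ^ m) = 1 := by
  simp

theorem Bd.factor (L r : ℕ) (y α : ℝ) (hy : 1 ≤ y) :
    Bd L (max |y - α| 1) (r * y) (C y * (1 - X) ^ r - C α) := by
  intro l hl
  rcases l with _ | l
  · rw [map_sub, PowerSeries.coeff_C_mul, coeff_zero_one_sub_pow, PowerSeries.coeff_zero_C]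
    simp
  · rw [map_sub, PowerSeries.coeff_C_mul, PowerSeries.coeff_C, if_neg (Nat.succ_ne_zero l),
      sub_zero, abs_mul, abs_of_nonneg (by linarith : (0 : ℝ) ≤ y)]
    have h1 := Bd.one_sub_pow L r (l + 1) hl
    have hf : (0 : ℝ) < ((l + 1).factorial : ℝ) := by
      exact_mod_cast (l + 1).factorial_pos
    have h2 : y ≤ y ^ (l + 1) := le_self_pow₀ hy (by omega)
    have h3 : (0 : ℝ) ≤ (r : ℝ) ^ (l + 1) / ((l + 1).factorial : ℝ) := by positivity
    calc y * |coeff (l + 1) ((1 - X : PowerSeries ℝ) ^ r)| ≤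
        y * (1 * ((r : ℝ) ^ (l + 1) / ((l + 1).factorial : ℝ))) :=
          mul_le_mul_of_nonneg_left h1 (by linarith)
      _ ≤ y ^ (l + 1) * ((r : ℝ) ^ (l + 1) / ((l + 1).factorial : ℝ)) := by
          rw [one_mul]; exact mul_le_mul_of_nonneg_right h2 h3
      _ = 1 * ((r * y) ^ (l + 1) / ((l + 1).factorial : ℝ)) := by
          rw [mul_pow]; ring
      _ ≤ _ := by
          apply mul_le_mul_of_nonneg_right (le_max_right _ _)
          positivity

end Pool.Agent.H48.TP
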