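import Pool.Agent.H48.TP.Seg

/-!
# Kernel computation for `r = 1`, thirty-two columns, part E
-/

set_option autoImplicit false

namespace Pool.Agent.H48.TP

theorem sg297 : segK 1 297 55 31 = true := by decide +kernel
theorem sg321 : segK 1 321 54 31 = true := by decide +kernel

end Pool.Agent.H48.TP
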