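import Pool.Agent.H48.TP.Psi

/-!
# The leading coefficients are positive and nondecreasing; bound of the eigenseries
-/

set_option autoImplicit false

namespace Pool.Agent.H48.TP

open PowerSeries Finset

theorem coeff_W_nonneg (s m N : ℕ) : 0 ≤ coeff N (W s m) := by
  induction m generalizing N with
  | zero =>
    rw [W]
    rcases N with _ | N
    · simp
    · rw [PowerSeries.coeff_succ_X_mul, J, PowerSeries.coeff_mk]
      exact zero_le_one
  | succ m ih =>
    rw [W, PowerSeries.coeff_mul]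
    refine Finset.sum_nonneg fun p _ => mul_nonneg (coeff_J_pow_nonneg s _) ?_
    rw [coeff_dd]
    exact mul_nonneg (Nat.cast_nonneg _) (ih _)

theorem W_mono (s m N : ℕ) (hN : 1 ≤ N) :
    coeff N (W s m) * ((N : ℝ) + 1) ^ m ≤ coeff (N + 1) (W s m) * (N : ℝ) ^ m := by
  induction m generalizing N with
  | zero =>
    obtain ⟨M, rfl⟩ : ∃ M, N = M + 1 := ⟨N - 1, by omega⟩
    rw [W, PowerSeries.coeff_succ_X_mul, PowerSeries.coeff_succ_X_mul, J, PowerSeries.coeff_mk,
      PowerSeries.coeff_mk]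
    simp
  | succ m ih =>
    rw [W, PowerSeries.coeff_mul, PowerSeries.coeff_mul,
      Finset.Nat.sum_antidiagonal_eq_sum_range_succ_mk,
      Finset.Nat.sum_antidiagonal_eq_sum_range_succ_mk, Finset.sum_mul, Finset.sum_mul,
      Finset.sum_range_succ _ (N + 1)]
    have hlast : 0 ≤ coeff (N + 1) (J ^ s) * coeff (N + 1 - (N + 1)) (dd (W s m)) *
        (N : ℝ) ^ (m + 1) := by
      rw [Nat.sub_self, coeff_dd]
      simp
    refine le_trans ?_ (le_add_of_nonneg_right hlast)
    refine Finset.sum_le_sum fun i hi => ?_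
    rw [Finset.mem_range] at hi
    have e1 : N + 1 - i = (N - i) + 1 := by omega
    simp only [e1]
    have hjN : N - i ≤ N := by omega
    generalize N - i = j at hjN ⊢
    rw [mul_assoc, mul_assoc]
    apply mul_le_mul_of_nonneg_left _ (coeff_J_pow_nonneg s i)
    rw [coeff_dd, coeff_dd]
    have hw := coeff_W_nonneg s m (j + 1)
    rcases Nat.eq_zero_or_pos j with hj | hj
    · subst hj
      simp only [Nat.cast_zero, zero_mul]
      positivity
    · have h1 := ih j hj
      have hjr : (0 : ℝ) < j := by exact_mod_cast hj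
      have h2 : (j : ℝ) * ((N : ℝ) + 1) ≤ ((j : ℝ) + 1) * N := by
        have : (j : ℝ) ≤ N := by exact_mod_cast hjN
        nlinarith
      have h3 : ((j : ℝ) * ((N : ℝ) + 1)) ^ (m + 1) ≤ (((j : ℝ) + 1) * N) ^ (m + 1) := by
        gcongr
      have h4 : (0 : ℝ) < ((j : ℝ) + 1) ^ m := by positivity
      refine le_of_mul_le_mul_right ?_ h4
      calc (j : ℝ) * coeff j (W s m) * ((N : ℝ) + 1) ^ (m + 1) * ((j : ℝ) + 1) ^ m =
            (coeff j (W s m) * ((j : ℝ) + 1) ^ m) * (j * ((N : ℝ) + 1) ^ (m + 1)) := by ring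
        _ ≤ (coeff (j + 1) (W s m) * (j : ℝ) ^ m) * (j * ((N : ℝ) + 1) ^ (m + 1)) := by
            apply mul_le_mul_of_nonneg_right h1
            positivity
        _ = coeff (j + 1) (W s m) * ((j : ℝ) * ((N : ℝ) + 1)) ^ (m + 1) := by
            rw [mul_pow, pow_succ (j : ℝ) m]; ring
        _ ≤ coeff (j + 1) (W s m) * (((j : ℝ) + 1) * N) ^ (m + 1) :=
            mul_le_mul_of_nonneg_left h3 hw
        _ = _ := by
            rw [mul_pow, pow_succ ((j : ℝ) + 1) m]
            push_cast
            ring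

theorem tendsto_W (s N : ℕ) (hN : 1 ≤ N) :
    Filter.Tendsto (fun m : ℕ => coeff N (W s m) / (N : ℝ) ^ m) Filter.atTop (nhds (cc s N)) := by
  obtain ⟨M, rfl⟩ : ∃ M, N = M + 1 := ⟨N - 1, by omega⟩
  have hN' : (0 : ℝ) < ((M + 1 : ℕ) : ℝ) := by positivity
  have h1 : ∀ m : ℕ, coeff (M + 1) (W s m) / ((M + 1 : ℕ) : ℝ) ^ m =
      (∑ k ∈ range M, cc s (k + 1) * TT s ((k + 1 : ℕ) : ℝ) (M + 1 - (k + 1)) *
        (((k + 1 : ℕ) : ℝ) / ((M + 1 : ℕ) : ℝ)) ^ m) + cc s (M + 1) := by
    intro m
    rw [coeff_W_eq, Finset.sum_range_succ, add_div, Finset.sum_div, Nat.sub_self, TT_zero, mul_one,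
      mul_div_cancel_right₀ _ (by positivity)]
    congr 1
    refine Finset.sum_congr rfl fun k _ => ?_
    rw [div_pow]
    ring
  simp only [h1]
  have h2 : Filter.Tendsto (fun m : ℕ => (∑ k ∈ range M, cc s (k + 1) *
      TT s ((k + 1 : ℕ) : ℝ) (M + 1 - (k + 1)) *
        (((k + 1 : ℕ) : ℝ) / ((M + 1 : ℕ) : ℝ)) ^ m)) Filter.atTop
      (nhds (∑ k ∈ range M, cc s (k + 1) *
      TT s ((k + 1 : ℕ) : ℝ) (M + 1 - (k + 1)) * 0)) := by
    apply tendsto_finsetSum
    intro k hk
    rw [Finset.mem_range] at hk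
    apply Filter.Tendsto.const_mul
    apply tendsto_pow_atTop_nhds_zero_of_lt_one (by positivity)
    rw [div_lt_one hN']
    exact_mod_cast (by omega : k + 1 < M + 1)
  have h3 := h2.add_const (cc s (M + 1))
  simpa using h3

theorem cc_le_succ (s N : ℕ) (hN : 1 ≤ N) : cc s N ≤ cc s (N + 1) := by
  refine le_of_tendsto_of_tendsto' (tendsto_W s N hN) (tendsto_W s (N + 1) (by omega)) fun m => ?_
  have h0 : (0 : ℝ) < N := by exact_mod_cast hN
  rw [div_le_div_iff₀ (by positivity) (by positivity)]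
  have := W_mono s m N hN
  push_cast
  exact this

theorem cc_mono (s y z : ℕ) (hy : 1 ≤ y) (hyz : y ≤ z) : cc s y ≤ cc s z := by
  induction z, hyz using Nat.le_induction with
  | base => exact le_rfl
  | succ z hz ih => exact ih.trans (cc_le_succ s z (by omega))

theorem cc_pos (s y : ℕ) (hy : 1 ≤ y) : 0 < cc s y := by
  have h := cc_mono s 1 y le_rfl hy
  rw [cc_one] at h
  linarith

theorem TT_bound (s Q y : ℕ) (hy : 1 ≤ y) : ∀ l, y + l ≤ Q →
    |TT s (y : ℝ) l| ≤ ((s : ℝ) * Q) ^ l / (l.factorial : ℝ) := by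
  intro l
  induction l using Nat.strong_induction_on with
  | _ l ih =>
    intro hl
    rcases l with _ | l
    · rw [TT_zero]; simp
    · rw [TT_succ]
      have hQ : (0 : ℝ) < Q := by exact_mod_cast (by omega : 0 < Q)
      have hyr : (0 : ℝ) < y := by exact_mod_cast hy
      set q : ℝ := (Q : ℝ) with hq
      set L : ℝ := (l : ℝ) + 1 with hL
      have hL0 : 0 < L := by positivity
      have hyL : (y : ℝ) + L ≤ q := by
        rw [hL, hq]
        exact_mod_cast (by omega : y + (l + 1) ≤ Q)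
      have hs : ∑ k ∈ range (l + 1), |coeff (k + 1) ((1 - X : PowerSeries ℝ) ^ s) *
          TT s (y : ℝ) (l - k)| ≤
          ((s : ℝ) + s * q) ^ (l + 1) / ((l + 1).factorial : ℝ) -
            ((s : ℝ) * q) ^ (l + 1) / ((l + 1).factorial : ℝ) := by
        have hb := binom (s : ℝ) ((s : ℝ) * q) (l + 1)
        rw [Finset.Nat.sum_antidiagonal_eq_sum_range_succ_mk, Finset.sum_range_succ'] at hb
        simp only [pow_zero, Nat.factorial_zero, Nat.cast_one, div_one, one_mul,
          Nat.sub_zero] at hb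
        rw [← hb, add_sub_cancel_right]
        refine Finset.sum_le_sum fun k hk => ?_
        rw [Finset.mem_range] at hk
        rw [abs_mul, Nat.add_sub_add_right]
        have h1 := Bd.one_sub_pow (k + 1) s (k + 1) le_rfl
        rw [one_mul] at h1
        have h2 := ih (l - k) (by omega) (by omega)
        exact mul_le_mul h1 h2 (abs_nonneg _) (by positivity)
      have hE : (1 + 1 / q) ^ (l + 1) * (1 - L / q) ≤ 1 := by
        have h3 : (1 : ℝ) / q ≤ 1 := by
          rw [div_le_one hQ]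
          linarith [show (1 : ℝ) ≤ y by exact_mod_cast hy]
        have h4 := one_add_mul_le_pow (a := -(1 / q)) (by linarith) (l + 1)
        have h5 : 1 - L / q ≤ (1 + -(1 / q)) ^ (l + 1) := by
          refine le_trans (le_of_eq ?_) h4
          rw [hL]; push_cast; ring
        calc (1 + 1 / q) ^ (l + 1) * (1 - L / q) ≤
              (1 + 1 / q) ^ (l + 1) * (1 + -(1 / q)) ^ (l + 1) :=
                mul_le_mul_of_nonneg_left h5 (by positivity)
          _ = (1 - (1 / q) ^ 2) ^ (l + 1) := by rw [← mul_pow]; ring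
          _ ≤ 1 := by
                apply pow_le_one₀
                · have : (1 / q) ^ 2 ≤ 1 := pow_le_one₀ (by positivity) h3
                  linarith
                · have : 0 ≤ (1 / q) ^ 2 := by positivity
                  linarith
      have hE1 : 1 ≤ (1 + 1 / q) ^ (l + 1) := by
        apply one_le_pow₀
        have : 0 < 1 / q := by positivity
        linarith
      have hE2 : (y : ℝ) * ((1 + 1 / q) ^ (l + 1) - 1) ≤ L := by
        have h6 : (1 + 1 / q) ^ (l + 1) * (q - L) ≤ q := by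
          have h7 : (1 + 1 / q) ^ (l + 1) * (q - L) =
              ((1 + 1 / q) ^ (l + 1) * (1 - L / q)) * q := by
            field_simp
          rw [h7]
          nlinarith
        have h8 : (y : ℝ) ≤ q - L := by linarith
        nlinarith
      have h9 : ((s : ℝ) + s * q) ^ (l + 1) = ((s : ℝ) * q) ^ (l + 1) * (1 + 1 / q) ^ (l + 1) := by
        rw [← mul_pow]
        congr 1
        field_simp
        ring
      rw [abs_mul, abs_of_nonneg (by positivity : 0 ≤ (y : ℝ) / L)]
      have h10 : |∑ k ∈ range (l + 1), coeff (k + 1) ((1 - X : PowerSeries ℝ) ^ s) *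
          TT s (y : ℝ) (l - k)| ≤ ((s : ℝ) * q) ^ (l + 1) / ((l + 1).factorial : ℝ) *
            ((1 + 1 / q) ^ (l + 1) - 1) := by
        refine (Finset.abs_sum_le_sum_abs _ _).trans (hs.trans (le_of_eq ?_))
        rw [h9]; ring
      have h11 : (0 : ℝ) ≤ ((s : ℝ) * q) ^ (l + 1) / ((l + 1).factorial : ℝ) := by positivity
      calc (y : ℝ) / L * |∑ k ∈ range (l + 1), coeff (k + 1) ((1 - X : PowerSeries ℝ) ^ s) *
          TT s (y : ℝ) (l - k)| ≤ (y : ℝ) / L *
          (((s : ℝ) * q) ^ (l + 1) / ((l + 1).factorial : ℝ) *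
            ((1 + 1 / q) ^ (l + 1) - 1)) := mul_le_mul_of_nonneg_left h10 (by positivity)
        _ = ((s : ℝ) * q) ^ (l + 1) / ((l + 1).factorial : ℝ) *
            (((y : ℝ) * ((1 + 1 / q) ^ (l + 1) - 1)) / L) := by ring
        _ ≤ ((s : ℝ) * q) ^ (l + 1) / ((l + 1).factorial : ℝ) * 1 := by
            apply mul_le_mul_of_nonneg_left _ h11
            rw [div_le_one hL0]
            exact hE2
        _ = _ := mul_one _

/-- the data for every `r` -/
theorem dat (s Q : ℕ) : Dat (s + 1) Q (cc s) (fun y => psi s (y : ℝ)) where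
  cpos := fun y hy => cc_pos s y hy
  cmono := fun y z hy hyz => cc_mono s y z hy hyz
  psi0 := fun y => by
    rw [coeff_psi, TT_zero]
  psib := fun y L hy hyL l hl => by
    rw [coeff_psi, one_mul]
    refine (TT_bound s Q y hy l (by omega)).trans (le_of_eq ?_)
    push_cast
    ring

end Pool.Agent.H48.TP
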