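import Pool.Agent.H48.TP.Det
import Pool.Agent.H48.TP.Mono
import Pool.Agent.H37.TPC.Red

/-!
# Deep rows of the `r`-th order Eulerian triangle
-/

set_option autoImplicit false

namespace Pool.Agent.H48.TP

open PowerSeries Finset Pool.Agent.H37.TPC

/-- the deep block, under the numerical condition -/
theorem deep_cond (r Q K n1 : ℕ) (hr : 1 ≤ r) (hQ : 1 ≤ Q)
    (H : 2 * (r : ℝ) * K * (K + 1) * (n1 + (K : ℝ) * Q) * (((Q : ℝ) - 1) / Q) ^ n1 ≤ 1)
    (E : ℕ → ℕ → ℤ) (hE : IsE r E) {m : ℕ} (hm : m ≤ K) (f g : Fin m → ℕ) (hf : StrictMono f)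
    (hg : StrictMono g) (hfn : ∀ i, n1 ≤ f i) (hgQ : ∀ j, g j < Q) :
    0 < Matrix.det (Matrix.of fun i j => E (f i) (g j)) := by
  obtain ⟨s, rfl⟩ : ∃ s, r = s + 1 := ⟨r - 1, by omega⟩
  have h1 := all_pos (s + 1) Q K n1 hr hQ (cc s) (fun y => psi s (y : ℝ)) (dat s Q) H hm f g hf
    hg hfn hgQ
  have h2 : (Matrix.of fun i j : Fin m => uu (s + 1) (cc s) (fun y => psi s (y : ℝ)) (f i)
      (g j + 1)).det = ((Matrix.det (Matrix.of fun i j => E (f i) (g j)) : ℤ) : ℝ) := by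
    have h3 := RingHom.map_det (Int.castRingHom ℝ) (Matrix.of fun i j : Fin m => E (f i) (g j))
    have h4 : (Int.castRingHom ℝ) (Matrix.det (Matrix.of fun i j : Fin m => E (f i) (g j))) =
        ((Matrix.det (Matrix.of fun i j : Fin m => E (f i) (g j)) : ℤ) : ℝ) := rfl
    rw [← h4, h3]
    congr 1
    ext i j
    simp only [Matrix.of_apply, RingHom.mapMatrix_apply, Matrix.map_apply]
    rw [← coeff_U_eq]
    exact (E_eq s E hE.h00 hE.h0 hE.hc hE.hs (f i) (g j)).symm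
  rw [h2] at h1
  exact_mod_cast h1

/-- the explicit threshold -/
theorem threshold (r Q : ℕ) (hQ : 1 ≤ Q) (h2 : 2 ≤ r * Q) :
    2 * (r : ℝ) * Q * (Q + 1) * ((6 * Q * Nat.clog 2 (r * Q) : ℕ) + (Q : ℝ) * Q) *
      (((Q : ℝ) - 1) / Q) ^ (6 * Q * Nat.clog 2 (r * Q)) ≤ 1 := by
  set L := Nat.clog 2 (r * Q) with hL
  set x : ℝ := ((r * Q : ℕ) : ℝ) with hx
  have hr : 1 ≤ r := by
    rcases Nat.eq_zero_or_pos r with h | h
    · subst h; omega
    · exact h
  have hQr : (1 : ℝ) ≤ Q := by exact_mod_cast hQ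
  have hrr : (1 : ℝ) ≤ r := by exact_mod_cast hr
  have hx2 : (2 : ℝ) ≤ x := by rw [hx]; exact_mod_cast h2
  have hxe : x = r * Q := by rw [hx]; push_cast; ring
  have hQx : (Q : ℝ) ≤ x := by rw [hxe]; nlinarith
  have hL1 : (L : ℝ) ≤ x - 1 := by
    have h3 : L ≤ r * Q - 1 := by
      rw [hL]
      apply Nat.clog_le_of_le_pow
      have := Nat.lt_two_pow_self (n := r * Q - 1)
      omega
    have h4 : ((L + 1 : ℕ) : ℝ) ≤ x := by
      rw [hx]
      exact_mod_cast (by omega : L + 1 ≤ r * Q)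
    push_cast at h4
    linarith
  have hL2 : x ≤ 2 ^ L := by
    have h3 : r * Q ≤ 2 ^ L := Nat.le_pow_clog (by norm_num) _
    rw [hx]
    exact_mod_cast h3
  have hL0 : (0 : ℝ) ≤ L := Nat.cast_nonneg L
  -- the power
  have h0 : (0 : ℝ) ≤ ((Q : ℝ) - 1) / Q := div_nonneg (by linarith) (by linarith)
  have he : (((Q : ℝ) - 1) / Q) ^ Q ≤ 37 / 100 := by
    have h3 := Real.one_sub_div_pow_le_exp_neg (n := Q) (t := 1) hQr
    have h4 : (1 : ℝ) - 1 / Q = ((Q : ℝ) - 1) / Q := by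
      rw [sub_div, div_self (by linarith)]
    rw [h4] at h3
    refine h3.trans ?_
    rw [Real.exp_neg, inv_le_comm₀ (Real.exp_pos 1) (by norm_num)]
    have := Real.exp_one_gt_d9
    norm_num
    linarith
  have hp : (((Q : ℝ) - 1) / Q) ^ (6 * Q * L) ≤ 1 / x ^ 8 := by
    have h5 : (((Q : ℝ) - 1) / Q) ^ (6 * Q * L) = (((((Q : ℝ) - 1) / Q) ^ Q) ^ 6) ^ L := by
      rw [← pow_mul, ← pow_mul]
      congr 1
      ring
    have h6 : ((((Q : ℝ) - 1) / Q) ^ Q) ^ 6 ≤ (37 / 100 : ℝ) ^ 6 :=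
      pow_le_pow_left₀ (pow_nonneg h0 _) he 6
    have h7 : ((37 / 100 : ℝ)) ^ 6 ≤ 1 / 2 ^ 8 := by norm_num
    rw [h5]
    calc (((((Q : ℝ) - 1) / Q) ^ Q) ^ 6) ^ L ≤ (1 / 2 ^ 8 : ℝ) ^ L :=
          pow_le_pow_left₀ (pow_nonneg (pow_nonneg h0 _) _) (h6.trans h7) L
      _ = 1 / ((2 : ℝ) ^ L) ^ 8 := by
          rw [div_pow, one_pow, ← pow_mul, ← pow_mul, mul_comm 8 L]
      _ ≤ 1 / x ^ 8 := by
          apply one_div_le_one_div_of_le (by positivity)
          exact pow_le_pow_left₀ (by linarith) hL2 8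
  have hc : 2 * (r : ℝ) * Q * (Q + 1) * (((6 * Q * L : ℕ) : ℝ) + (Q : ℝ) ^ 2) ≤ x ^ 8 := by
    have h8 : (((6 * Q * L : ℕ) : ℝ) + (Q : ℝ) ^ 2) ≤ 7 * x ^ 2 - 6 * x := by
      push_cast
      have h9 : (Q : ℝ) * L ≤ x * (x - 1) := mul_le_mul hQx hL1 hL0 (by linarith)
      have h10 : (Q : ℝ) ^ 2 ≤ x ^ 2 := pow_le_pow_left₀ (by linarith) hQx 2
      nlinarith
    have h11 : 0 ≤ (((6 * Q * L : ℕ) : ℝ) + (Q : ℝ) ^ 2) := by positivity
    have h12 : 2 * (r : ℝ) * Q * (Q + 1) = 2 * x * (Q + 1) := by rw [hxe]; ring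
    rw [h12]
    have h13 : 2 * x * ((Q : ℝ) + 1) ≤ 2 * x * (x + 1) := by
      apply mul_le_mul_of_nonneg_left _ (by linarith)
      linarith
    have h14 : 2 * x * ((Q : ℝ) + 1) * (((6 * Q * L : ℕ) : ℝ) + (Q : ℝ) ^ 2) ≤
        2 * x * (x + 1) * (7 * x ^ 2 - 6 * x) :=
      mul_le_mul h13 h8 h11 (by positivity)
    refine h14.trans ?_
    obtain ⟨u, hu⟩ : ∃ u, x = u + 2 := ⟨x - 2, by ring⟩
    have hu0 : 0 ≤ u := by linarith
    rw [hu]
    have h15 : (u + 2) ^ 8 - 2 * (u + 2) * (u + 2 + 1) * (7 * (u + 2) ^ 2 - 6 * (u + 2)) =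
        (u + 2) ^ 2 * ((u + 2) ^ 6 - 2 * (u + 3) * (7 * u + 8)) := by ring
    have h16 : 0 ≤ (u + 2) ^ 6 - 2 * (u + 3) * (7 * u + 8) := by
      have h17 : (u + 2) ^ 6 - 2 * (u + 3) * (7 * u + 8) =
          u ^ 6 + 12 * u ^ 5 + 60 * u ^ 4 + 160 * u ^ 3 + 226 * u ^ 2 + 134 * u + 16 := by ring
      rw [h17]
      positivity
    have h18 : 0 ≤ (u + 2) ^ 2 * ((u + 2) ^ 6 - 2 * (u + 3) * (7 * u + 8)) :=
      mul_nonneg (by positivity) h16
    linarith
  have hx8 : 0 < x ^ 8 := by positivity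
  rw [← pow_two (Q : ℝ)]
  calc 2 * (r : ℝ) * Q * (Q + 1) * (((6 * Q * L : ℕ) : ℝ) + (Q : ℝ) ^ 2) *
        (((Q : ℝ) - 1) / Q) ^ (6 * Q * L) ≤ x ^ 8 * (1 / x ^ 8) :=
        mul_le_mul hc hp (pow_nonneg h0 _) hx8.le
    _ = 1 := by field_simp

/-- **Deep rows.** -/
theorem deep (r Q : ℕ) (hr : 1 ≤ r) (E : ℕ → ℕ → ℤ) (hE : IsE r E) {m : ℕ} (f g : Fin m → ℕ)
    (hf : StrictMono f) (hg : StrictMono g) (hfn : ∀ i, 6 * Q * Nat.clog 2 (r * Q) ≤ f i)
    (hgQ : ∀ j, g j < Q) : 0 < Matrix.det (Matrix.of fun i j => E (f i) (g j)) := by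
  rcases m with _ | m
  · simp
  have hQ : 1 ≤ Q := by
    have := hgQ 0
    omega
  rcases Nat.lt_or_ge (r * Q) 2 with h | h
  · -- one column
    have hr1 : r = 1 ∧ Q = 1 := by
      constructor
      · nlinarith
      · nlinarith
    obtain ⟨rfl, rfl⟩ := hr1
    have hm : m = 0 := by
      by_contra hm0
      have h1 := hgQ 0
      have h2 := hgQ ⟨1, by omega⟩
      have h3 : g 0 < g ⟨1, by omega⟩ := hg (by
        rw [Fin.lt_def]; simp)
      omega
    subst hm
    have h4 : g 0 = 0 := by have := hgQ 0; omega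
    have h5 : ∀ n, E n 0 = 1 := by
      intro n
      induction n with
      | zero => exact hE.h00
      | succ n ih => rw [hE.hc, ih]
    rw [Matrix.det_fin_one]
    simp only [Matrix.of_apply]
    rw [h4, h5]
    norm_num
  · have hm : m + 1 ≤ Q := by
      have h1 : (Finset.univ.image g).card = m + 1 := by
        rw [Finset.card_image_of_injective _ hg.injective, Finset.card_univ, Fintype.card_fin]
      have h2 : Finset.univ.image g ⊆ Finset.range Q := by
        intro x hx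
        obtain ⟨j, _, rfl⟩ := Finset.mem_image.1 hx
        exact Finset.mem_range.2 (hgQ j)
      have h3 := Finset.card_le_card h2
      rwa [h1, Finset.card_range] at h3
    exact deep_cond r Q Q _ hr hQ (threshold r Q hQ h) E hE hm f g hf hg hfn hgQ

/-- total positivity of the first columns from the initial minors -/
theorem redC {r : ℕ} {E : ℕ → ℕ → ℤ} (h : IsE r E) (C : ℕ)
    (hini : ∀ K n, K ≤ C → 0 < ini (shE E) K n) :
    ∀ m : ℕ, ∀ f g : Fin m → ℕ, StrictMono f → StrictMono g → (∀ j, g j < C) →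
      0 ≤ Matrix.det (Matrix.of fun i j => E (f i) (g j)) := by
  intro m f g hf hg hgC
  rcases m with _ | m
  · simp
  -- rows at least one
  have hrow : ∀ x k, E (max x 1) k = E x k := by
    intro x k
    rcases x with _ | x
    · simpa using h.one_eq k
    · rw [max_eq_left (by omega)]
  have hmat : (Matrix.of fun i j : Fin (m + 1) => E (f i) (g j))
      = Matrix.of fun i j : Fin (m + 1) => E (max (f i) 1) (g j) := by
    ext i j
    simp only [Matrix.of_apply]
    rw [hrow]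
  by_cases hst : ∀ i j : Fin (m + 1), i < j → max (f i) 1 < max (f j) 1
  · have key : 0 ≤ mnr (shE E) (fun i : Fin (m + 1) => max (f i) 1 - 1) g := by
      apply cryer_aux C (shE E) _ hini _ _ _ _ hg hgC
      · intro n k hnk
        unfold shE
        rw [h.tri n k hnk]
        simp
      · intro i j hij
        have h1 := hst i j hij
        have h2 : 1 ≤ max (f i) 1 := le_max_right _ _
        show max (f i) 1 - 1 < max (f j) 1 - 1
        omega
    have hcast : mnr (shE E) (fun i : Fin (m + 1) => max (f i) 1 - 1) g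
        = ((Matrix.det (Matrix.of fun i j : Fin (m + 1) => E (max (f i) 1) (g j)) : ℤ) : ℝ) := by
      unfold mnr
      have h3 := RingHom.map_det (Int.castRingHom ℝ)
        (Matrix.of fun i j : Fin (m + 1) => E (max (f i) 1) (g j))
      have h4 : (Int.castRingHom ℝ) (Matrix.det (Matrix.of fun i j : Fin (m + 1) =>
          E (max (f i) 1) (g j))) = ((Matrix.det (Matrix.of fun i j : Fin (m + 1) =>
          E (max (f i) 1) (g j)) : ℤ) : ℝ) := rfl
      rw [← h4, h3]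
      congr 1
      ext i j
      have h2 : max (f i) 1 - 1 + 1 = max (f i) 1 := Nat.sub_add_cancel (le_max_right _ _)
      simp only [Matrix.of_apply, RingHom.mapMatrix_apply, Matrix.map_apply, shE, h2]
      rfl
    rw [hmat]
    rw [hcast] at key
    exact_mod_cast key
  · push Not at hst
    obtain ⟨i, j, hij, hle⟩ := hst
    have h1 := hf hij
    have h2 : max (f i) 1 = max (f j) 1 :=
      le_antisymm (max_le_max_right 1 h1.le) hle
    rw [hmat]
    apply le_of_eq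
    symm
    apply Matrix.det_zero_of_row_eq (ne_of_lt hij)
    ext k
    simp only [Matrix.of_apply, h2]

theorem ini_cast (E : ℕ → ℕ → ℤ) (K n : ℕ) : ini (shE E) K n =
    ((Matrix.det (Matrix.of fun i j : Fin K => E (n + 1 + i) j) : ℤ) : ℝ) := by
  unfold ini
  have h3 := RingHom.map_det (Int.castRingHom ℝ)
    (Matrix.of fun i j : Fin K => E (n + 1 + i) j)
  have h4 : (Int.castRingHom ℝ) (Matrix.det (Matrix.of fun i j : Fin K =>
      E (n + 1 + i) j)) = ((Matrix.det (Matrix.of fun i j : Fin K =>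
      E (n + 1 + i) j) : ℤ) : ℝ) := rfl
  rw [← h4, h3]
  congr 1
  ext i j
  simp only [Matrix.of_apply, RingHom.mapMatrix_apply, Matrix.map_apply, shE]
  have e : n + (i : ℕ) + 1 = n + 1 + i := by omega
  rw [e]
  rfl

/-- **Finite criterion.** For the first `C` columns finitely many minors suffice. -/
theorem finite_crit (r C : ℕ) (hr : 1 ≤ r) (E : ℕ → ℕ → ℤ) (hE : IsE r E)
    (hfin : ∀ K n : ℕ, K ≤ C → n + 1 < 6 * K * Nat.clog 2 (r * K) →
      0 < Matrix.det (Matrix.of fun i j : Fin K => E (n + 1 + i) j)) :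
    ∀ m : ℕ, ∀ f g : Fin m → ℕ, StrictMono f → StrictMono g → (∀ j, g j < C) →
      0 ≤ Matrix.det (Matrix.of fun i j => E (f i) (g j)) := by
  apply redC hE C
  intro K n hK
  rw [ini_cast]
  have key : 0 < Matrix.det (Matrix.of fun i j : Fin K => E (n + 1 + i) j) := by
    rcases Nat.lt_or_ge (n + 1) (6 * K * Nat.clog 2 (r * K)) with h | h
    · exact hfin K n hK h
    · exact deep r K hr E hE (fun i : Fin K => n + 1 + (i : ℕ)) (fun j : Fin K => (j : ℕ))
        (fun i j hij => by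
          have : (i : ℕ) < j := hij
          show n + 1 + (i : ℕ) < n + 1 + (j : ℕ)
          omega)
        (fun i j hij => hij) (fun i => by show _ ≤ n + 1 + (i : ℕ); omega) (fun j => j.2)
  exact_mod_cast key

end Pool.Agent.H48.TP
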