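import Pool.Agent.H48.TP.Run
import Pool.Agent.H48.TP.Fin

/-!
# Soundness of the elimination check
-/

set_option autoImplicit false

namespace Pool.Agent.H48.TP

open Finset Pool.Agent.H37.TPC

/-- a list represents the start of a real sequence -/
def Rp : List ℕ → (ℕ → ℝ) → Prop
  | [], _ => True
  | x :: xs, w => (x : ℝ) = w 0 ∧ Rp xs fun k => w (k + 1)

theorem Rp.congr : ∀ {l : List ℕ} {u v : ℕ → ℝ}, (∀ k, u k = v k) → Rp l u → Rp l v := by
  intro l u v h hl
  have : u = v := funext h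
  rwa [← this]

theorem force_eq (x : ℕ) (k : ℕ → Bool) : force x k = k x := by
  cases x <;> rfl

theorem cond_true {b : Bool} {c : Bool} (h : cond b c false = true) : b = true ∧ c = true := by
  cases b
  · exact absurd h (by simp)
  · exact ⟨rfl, h⟩

theorem elimK_spec (a b : ℕ) : ∀ (us vs : List ℕ) (k : List ℕ → Bool) (u v : ℕ → ℝ),
    Rp us u → Rp vs v → elimK a b us vs k = true →
    ∃ l, l.length = us.length ∧ Rp l (fun i => (a : ℝ) * v i - b * u i) ∧ k l = true := by
  intro us
  induction us with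
  | nil =>
    intro vs k u v _ _ h
    exact ⟨[], rfl, trivial, h⟩
  | cons s us ih =>
    intro vs k u v hu hv h
    rcases vs with _ | ⟨t, vs⟩
    · exact absurd h (by simp [elimK])
    · rw [elimK] at h
      obtain ⟨h1, h2⟩ := cond_true h
      rw [force_eq] at h2
      have h3 : b * s ≤ a * t := Nat.le_of_ble_eq_true h1
      obtain ⟨l, hl, hr, hk⟩ := ih vs _ _ _ hu.2 hv.2 h2
      refine ⟨(a * t - b * s) :: l, by simp [hl], ⟨?_, hr⟩, hk⟩
      rw [Nat.cast_sub h3]
      push_cast
      rw [hu.1, hv.1]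

theorem gcdK_spec : ∀ (us : List ℕ) (g : ℕ) (k : ℕ → Bool), gcdK us g k = true →
    ∃ g', k g' = true ∧ g' ∣ g ∧ ∀ x ∈ us, g' ∣ x := by
  intro us
  induction us with
  | nil =>
    intro g k h
    exact ⟨g, h, dvd_rfl, by simp⟩
  | cons s us ih =>
    intro g k h
    rw [gcdK, force_eq] at h
    obtain ⟨g', h1, h2, h3⟩ := ih _ _ h
    refine ⟨g', h1, h2.trans (Nat.gcd_dvd_right s g), ?_⟩
    intro x hx
    rcases List.mem_cons.1 hx with rfl | hx
    · exact h2.trans (Nat.gcd_dvd_left _ _)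
    · exact h3 x hx

theorem divK_spec (g : ℕ) (hg : 0 < g) : ∀ (us : List ℕ) (k : List ℕ → Bool) (u : ℕ → ℝ),
    (∀ x ∈ us, g ∣ x) → Rp us u → divK g us k = true →
    ∃ l, l.length = us.length ∧ Rp l (fun i => (1 / (g : ℝ)) * u i) ∧ k l = true := by
  intro us
  induction us with
  | nil =>
    intro k u _ _ h
    exact ⟨[], rfl, trivial, h⟩
  | cons s us ih =>
    intro k u hd hu h
    rw [divK, force_eq] at h
    obtain ⟨l, hl, hr, hk⟩ := ih _ _ (fun x hx => hd x (List.mem_cons_of_mem _ hx)) hu.2 h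
    refine ⟨(s / g) :: l, by simp [hl], ⟨?_, hr⟩, hk⟩
    rw [Nat.cast_div (hd s List.mem_cons_self) (by exact_mod_cast hg.ne'), hu.1]
    ring

theorem nrmK_spec (l : List ℕ) (k : List ℕ → Bool) (u : ℕ → ℝ) (hu : Rp l u)
    (h : nrmK l k = true) : ∃ (l' : List ℕ) (c : ℝ), 0 < c ∧ l'.length = l.length ∧
      Rp l' (fun i => c * u i) ∧ k l' = true := by
  unfold nrmK at h
  obtain ⟨g, h1, _, h3⟩ := gcdK_spec _ _ _ h
  rcases g with _ | g
  · exact ⟨l, 1, one_pos, rfl, Rp.congr (fun k => (one_mul _).symm) hu, h1⟩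
  · obtain ⟨l', hl, hr, hk⟩ := divK_spec (g + 1) (Nat.succ_pos g) l k u h3 hu h1
    exact ⟨l', 1 / ((g + 1 : ℕ) : ℝ), by positivity, hl, hr, hk⟩

/-- the eliminated array -/
noncomputable def el (a : ℕ → ℕ → ℝ) (n k : ℕ) : ℝ :=
  a (n + 1) (k + 1) / a (n + 1) 0 - a n (k + 1) / a n 0

/-- the invariant of the stages -/
def Inv : ℕ → (ℕ → ℕ → ℝ) → ℕ → List (List ℕ) → Prop
  | 0, _, _, _ => True
  | _ + 1, _, 0, st => st = []
  | C + 1, a, n + 1, st => ∃ old rest, st = old :: rest ∧ old.length = C + 1 ∧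
      (∃ c : ℝ, 0 < c ∧ Rp old fun k => c * a n k) ∧ (∀ m, m ≤ n → 0 < a m 0) ∧
      Inv C (el a) n rest

theorem Inv_nil (C : ℕ) (a : ℕ → ℕ → ℝ) : Inv C a 0 [] := by
  cases C
  · trivial
  · rfl

theorem stepK_spec : ∀ (C : ℕ) (a : ℕ → ℕ → ℝ) (n : ℕ) (st : List (List ℕ)) (new : List ℕ)
    (k : List (List ℕ) → Bool), Inv C a n st → new.length = C →
    (∃ c : ℝ, 0 < c ∧ Rp new fun i => c * a n i) → stepK st new k = true →
    ∃ st', Inv C a (n + 1) st' ∧ k st' = true := by
  intro C
  induction C with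
  | zero =>
    intro a n st new k _ hlen _ h
    have : new = [] := List.length_eq_zero_iff.1 hlen
    subst this
    refine ⟨[], trivial, ?_⟩
    cases st <;> exact h
  | succ C ih =>
    intro a n st new k hI hlen hnew h
    rcases new with _ | ⟨b, vs⟩
    · exact absurd hlen (by simp)
    have hvs : vs.length = C := by simpa using hlen
    obtain ⟨c, hc, hR⟩ := hnew
    rcases n with _ | n
    · have hst : st = [] := hI
      subst hst
      rw [stepK] at h
      obtain ⟨h1, h2⟩ := cond_true h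
      refine ⟨[b :: vs], ⟨b :: vs, [], rfl, hlen, ⟨c, hc, hR⟩, ?_, Inv_nil C _⟩, h2⟩
      intro m hm
      have hm0 : m = 0 := Nat.le_zero.1 hm
      subst hm0
      have h3 : 1 ≤ b := Nat.le_of_ble_eq_true h1
      have hR1 : (b : ℝ) = c * a 0 0 := hR.1
      have h4 : (0 : ℝ) < c * a 0 0 := by
        rw [← hR1]; exact_mod_cast h3
      exact (mul_pos_iff_of_pos_left hc).1 h4
    · obtain ⟨old, rest, hst, hold, ⟨c', hc', hR'⟩, hpos, hI'⟩ := hI
      subst hst
      rcases old with _ | ⟨a0, us⟩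
      · exact absurd hold (by simp)
      have hus : us.length = C := by simpa using hold
      rw [stepK] at h
      obtain ⟨h1, h2⟩ := cond_true h
      have h3 : 1 ≤ b := Nat.le_of_ble_eq_true h1
      have hR1 : (b : ℝ) = c * a (n + 1) 0 := hR.1
      have h4 : (0 : ℝ) < c * a (n + 1) 0 := by
        rw [← hR1]; exact_mod_cast h3
      have h5 : 0 < a (n + 1) 0 := (mul_pos_iff_of_pos_left hc).1 h4
      have h6 : 0 < a n 0 := hpos n le_rfl
      obtain ⟨e, he, hRe, h7⟩ := elimK_spec a0 b us vs _ _ _ hR'.2 hR.2 h2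
      obtain ⟨e', c2, hc2, he', hRe', h8⟩ := nrmK_spec e _ _ hRe h7
      obtain ⟨rest', hI2, hk⟩ := ih (el a) n rest e' _ hI' (by omega)
        ⟨c2 * (c * c' * a n 0 * a (n + 1) 0), by positivity, Rp.congr (fun i => by
          have e2 : (a0 : ℝ) = c' * a n 0 := hR'.1
          rw [hR1, e2, el]
          field_simp) hRe'⟩ h8
      refine ⟨(b :: vs) :: rest', ⟨b :: vs, rest', rfl, hlen, ⟨c, hc, hR⟩, ?_, hI2⟩, hk⟩
      intro m hm
      rcases Nat.lt_or_ge m (n + 1) with h9 | h9
      · exact hpos m (by omega)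
      · have : m = n + 1 := by omega
        subst this
        exact h5

theorem Inv_pos : ∀ (C : ℕ) (a : ℕ → ℕ → ℝ) (R : ℕ) (st : List (List ℕ)), Inv C a R st →
    ∀ K m, K ≤ C → m + K ≤ R → 0 < (Matrix.of fun i l : Fin K => a (m + i) l).det := by
  intro C
  induction C with
  | zero =>
    intro a R st _ K m hK _
    have : K = 0 := by omega
    subst this
    simp
  | succ C ih =>
    intro a R st hI K m hK hm
    rcases K with _ | K
    · simp
    rcases R with _ | R
    · omega
    obtain ⟨old, rest, _, _, _, hpos, hI'⟩ := hI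
    have hne : ∀ i : Fin (K + 1), 0 < a (m + (i : ℕ)) 0 := fun i => hpos _ (by omega)
    rw [red a K (fun i : Fin (K + 1) => m + (i : ℕ)) (fun i => (hne i).ne')]
    apply mul_pos (Finset.prod_pos fun i _ => hne i)
    have h1 := ih (el a) R rest hI' K m (by omega) (by omega)
    refine lt_of_lt_of_eq h1 ?_
    congr 1

theorem nextK_spec (r n : ℕ) (a : ℕ → ℝ) (b : ℕ → ℝ)
    (hz : ∀ j, r * n < j → a j = 0)
    (hab : ∀ j : ℕ, b (j + 1) = ((j : ℝ) + 2) * a (j + 1) + ((r : ℝ) * n - j) * a j) :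
    ∀ (xs : List ℕ) (j p : ℕ) (k : List ℕ → Bool), (p : ℝ) = a j →
      Rp xs (fun i => a (j + 1 + i)) → nextK r n j p xs k = true →
      ∃ l, l.length = xs.length ∧ Rp l (fun i => b (j + 1 + i)) ∧ k l = true := by
  intro xs
  induction xs with
  | nil =>
    intro j p k _ _ h
    exact ⟨[], rfl, trivial, h⟩
  | cons x xs ih =>
    intro j p k hp hR h
    rw [nextK, force_eq] at h
    have hx : (x : ℝ) = a (j + 1) := hR.1
    obtain ⟨l, hl, hr, hk⟩ := ih (j + 1) x _ hx (Rp.congr (fun i => by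
      show a (j + 1 + (i + 1)) = a (j + 1 + 1 + i)
      congr 1; omega) hR.2) h
    refine ⟨((j + 2) * x + (r * n - j) * p) :: l, by simp [hl], ⟨?_, Rp.congr (fun i => by
      show b (j + 1 + 1 + i) = b (j + 1 + (i + 1))
      congr 1; omega) hr⟩, hk⟩
    simp only [add_zero]
    rw [hab]
    push_cast
    rw [hx, hp]
    congr 1
    rcases Nat.lt_or_ge (r * n) j with h1 | h1
    · rw [hz j h1]; simp
    · rw [Nat.cast_sub h1]; push_cast; ring

theorem runK_spec (r C : ℕ) (hr : 1 ≤ r) (E : ℕ → ℕ → ℤ) (hE : IsE r E) :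
    ∀ (f i : ℕ) (row : List ℕ) (st : List (List ℕ)), row.length = C → 1 ≤ C →
      Rp row (fun k => shE E i k) → Inv C (shE E) i st → runK r f (i + 1) row st = true →
      ∃ st', Inv C (shE E) (i + f) st' := by
  intro f
  induction f with
  | zero =>
    intro i row st _ _ _ hI _
    exact ⟨st, hI⟩
  | succ f ih =>
    intro i row st hlen hC hR hI h
    rw [runK] at h
    obtain ⟨st', hI', h1⟩ := stepK_spec C (shE E) i st row _ hI hlen
      ⟨1, one_pos, Rp.congr (fun k => (one_mul _).symm) hR⟩ h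
    rcases row with _ | ⟨p, xs⟩
    · simp at hlen; omega
    · obtain ⟨l, hl, hRl, h2⟩ := nextK_spec r (i + 1) (fun k => shE E i k)
        (fun k => shE E (i + 1) k)
        (fun j hj => by
          have h3 : i < j := by nlinarith
          unfold shE
          rw [hE.tri i j h3]
          simp)
        (fun j => by
          unfold shE
          rw [hE.hs]
          push_cast
          ring) xs 0 p _ hR.1 (Rp.congr (fun k => by
          show shE E i (k + 1) = shE E i (0 + 1 + k)
          congr 1; omega) hR.2) h1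
      have h4 : Rp (p :: l) (fun k => shE E (i + 1) k) := by
        refine ⟨?_, Rp.congr (fun k => by
          show shE E (i + 1) (0 + 1 + k) = shE E (i + 1) (k + 1)
          congr 1; omega) hRl⟩
        have h6 : (p : ℝ) = shE E i 0 := hR.1
        show (p : ℝ) = shE E (i + 1) 0
        rw [h6]
        unfold shE
        rw [hE.hc (i + 1)]
      obtain ⟨st2, h5⟩ := ih (i + 1) (p :: l) st' (by simpa [hl] using hlen) hC h4 hI' h2
      exact ⟨st2, by rwa [show i + (f + 1) = i + 1 + f by omega]⟩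

theorem Rp_one {r : ℕ} {E : ℕ → ℕ → ℤ} (hE : IsE r E) (c : ℕ) :
    Rp (1 :: List.replicate c 0) (fun k => shE E 0 k) := by
  refine ⟨?_, ?_⟩
  · show ((1 : ℕ) : ℝ) = shE E 0 0
    unfold shE
    rw [hE.hc, hE.h00]
    simp
  · have h1 : ∀ k, shE E 0 (k + 1) = 0 := by
      intro k
      unfold shE
      rw [hE.tri 0 (k + 1) (by omega)]
      simp
    have h2 : ∀ (c : ℕ) (w : ℕ → ℝ), (∀ k, w k = 0) → Rp (List.replicate c 0) w := by
      intro c
      induction c with
      | zero => intro w _; trivial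
      | succ c ih =>
        intro w hw
        rw [List.replicate_succ]
        exact ⟨by rw [hw]; simp, ih _ fun k => hw _⟩
    exact h2 c _ h1

/-- **First columns.** If the elimination succeeds on the first `R` rows and the numerical
condition holds from row `n1`, then the first `C` columns are totally positive. -/
theorem first_columns (r C R n1 : ℕ) (hr : 1 ≤ r) (hC : 1 ≤ C) (hR : n1 + C ≤ R + 1)
    (hrun : runK r R 1 (1 :: List.replicate (C - 1) 0) [] = true)
    (hcond : ∀ K, 1 ≤ K → K ≤ C → 2 * r * K * (K + 1) * (n1 + K * K) * (K - 1) ^ n1 ≤ K ^ n1)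
    (E : ℕ → ℕ → ℤ) (hE : IsE r E) :
    (∀ m : ℕ, ∀ f g : Fin m → ℕ, StrictMono f → StrictMono g → (∀ j, g j < C) →
      0 ≤ Matrix.det (Matrix.of fun i j => E (f i) (g j))) ∧
    (∀ n K : ℕ, K ≤ C → 0 < Matrix.det (Matrix.of fun i j : Fin K => E (n + i + 1) j)) := by
  have hini : ∀ K n, K ≤ C → 0 < ini (shE E) K n := by
    intro K n hK
    rcases Nat.eq_zero_or_pos K with h0 | h0
    · subst h0
      simp [ini]
    rcases Nat.lt_or_ge (n + 1) n1 with h | h
    · obtain ⟨st', hI⟩ := runK_spec r C hr E hE R 0 _ [] (by simp; omega) hC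
        (Rp_one hE (C - 1)) (Inv_nil C _) hrun
      rw [zero_add] at hI
      exact Inv_pos C (shE E) R st' hI K n hK (by omega)
    · rw [ini_cast]
      have key := deep_cond r K K n1 hr h0 (cond_of_nat r K K n1 h0 (hcond K h0 hK)) E hE le_rfl
        (fun i : Fin K => n + 1 + (i : ℕ)) (fun j : Fin K => (j : ℕ))
        (fun i j hij => by
          have : (i : ℕ) < j := hij
          show n + 1 + (i : ℕ) < n + 1 + (j : ℕ)
          omega)
        (fun i j hij => hij) (fun i => by show n1 ≤ n + 1 + (i : ℕ); omega) (fun j => j.2)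
      exact_mod_cast key
  refine ⟨redC hE C hini, fun n K hK => ?_⟩
  have h1 := hini K n hK
  rw [ini_cast] at h1
  have h2 : (Matrix.of fun i j : Fin K => E (n + i + 1) j) =
      Matrix.of fun i j : Fin K => E (n + 1 + i) j := by
    ext i j
    simp only [Matrix.of_apply]
    congr 1
    omega
  rw [h2]
  exact_mod_cast h1

end Pool.Agent.H48.TP
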