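import Pool.Agent.H48.TP.Seg
import Pool.Agent.H48.TP.Snd

/-!
# Soundness of the elimination in segments
-/

set_option autoImplicit false

namespace Pool.Agent.H48.TP

open Finset Pool.Agent.H37.TPC

/-- one new row -/
theorem next_shE (r C : ℕ) (hr : 1 ≤ r) (E : ℕ → ℕ → ℤ) (hE : IsE r E) (i p : ℕ) (xs : List ℕ)
    (k : List ℕ → Bool) (hlen : (p :: xs).length = C) (hR : Rp (p :: xs) fun k => shE E i k)
    (h1 : nextK r (i + 1) 0 p xs k = true) :
    ∃ l, (p :: l).length = C ∧ Rp (p :: l) (fun k => shE E (i + 1) k) ∧ k l = true := by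
  obtain ⟨l, hl, hRl, h2⟩ := nextK_spec r (i + 1) (fun k => shE E i k)
    (fun k => shE E (i + 1) k)
    (fun j hj => by
      have h3 : i < j := by nlinarith
      unfold shE
      rw [hE.tri i j h3]
      simp)
    (fun j => by
      unfold shE
      rw [hE.hs]
      push_cast
      ring) xs 0 p _ hR.1 (Rp.congr (fun k => by
      show shE E i (k + 1) = shE E i (0 + 1 + k)
      congr 1; omega) hR.2) h1
  refine ⟨l, by simpa [hl] using hlen, ⟨?_, Rp.congr (fun k => by
    show shE E (i + 1) (0 + 1 + k) = shE E (i + 1) (k + 1)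
    congr 1; omega) hRl⟩, h2⟩
  have h6 : (p : ℝ) = shE E i 0 := hR.1
  show (p : ℝ) = shE E (i + 1) 0
  rw [h6]
  unfold shE
  rw [hE.hc (i + 1)]

theorem rowsK_spec (r C : ℕ) (hr : 1 ≤ r) (E : ℕ → ℕ → ℤ) (hE : IsE r E)
    (k : List ℕ → Bool) : ∀ (s i : ℕ) (row : List ℕ), row.length = C →
      Rp row (fun j => shE E i j) → rowsK r s (i + 1) row k = true →
      ∃ row', row'.length = C ∧ Rp row' (fun j => shE E (i + s) j) ∧ k row' = true := by
  intro s
  induction s with
  | zero =>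
    intro i row hlen hR h
    exact ⟨row, hlen, hR, h⟩
  | succ s ih =>
    intro i row hlen hR h
    rcases row with _ | ⟨p, xs⟩
    · exact absurd h (by simp [rowsK])
    · have h' : nextK r (i + 1) 0 p xs (fun l => rowsK r s (i + 1 + 1) (p :: l) k) = true := h
      obtain ⟨l, hl, hRl, h2⟩ := next_shE r C hr E hE i p xs _ hlen hR h'
      obtain ⟨row', h3, h4, h5⟩ := ih (i + 1) (p :: l) hl hRl h2
      exact ⟨row', h3, by rwa [show i + 1 + s = i + (s + 1) by omega] at h4, h5⟩

theorem runK_spec' (r C : ℕ) (hr : 1 ≤ r) (E : ℕ → ℕ → ℤ) (hE : IsE r E) (s : ℕ) :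
    ∀ (f i : ℕ) (row : List ℕ) (st : List (List ℕ)), row.length = C → 1 ≤ C →
      Rp row (fun k => shE E (s + i) k) → Inv C (fun n k => shE E (s + n) k) i st →
      runK r f (s + i + 1) row st = true →
      ∃ st', Inv C (fun n k => shE E (s + n) k) (i + f) st' := by
  intro f
  induction f with
  | zero =>
    intro i row st _ _ _ hI _
    exact ⟨st, hI⟩
  | succ f ih =>
    intro i row st hlen hC hR hI h
    rw [runK] at h
    obtain ⟨st', hI', h1⟩ := stepK_spec C (fun n k => shE E (s + n) k) i st row _ hI hlen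
      ⟨1, one_pos, Rp.congr (fun k => (one_mul _).symm) hR⟩ h
    rcases row with _ | ⟨p, xs⟩
    · simp at hlen; omega
    · obtain ⟨l, hl, hRl, h2⟩ := next_shE r C hr E hE (s + i) p xs _ hlen hR h1
      obtain ⟨st2, h5⟩ := ih (i + 1) (p :: l) st' hl hC
        (by rwa [show s + (i + 1) = s + i + 1 by omega]) hI'
        (by rwa [show s + (i + 1) + 1 = s + i + 1 + 1 by omega])
      exact ⟨st2, by rwa [show i + (f + 1) = i + 1 + f by omega]⟩

/-- a segment proves the positivity of the initial minors with rows in it -/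
theorem seg_pos (r s f c : ℕ) (hr : 1 ≤ r) (h : segK r s f c = true) (E : ℕ → ℕ → ℤ)
    (hE : IsE r E) (K n : ℕ) (hK : K ≤ c + 1) (hs : s ≤ n) (hn : n + K ≤ s + f) :
    0 < ini (shE E) K n := by
  unfold segK at h
  obtain ⟨row, hlen, hR, h1⟩ := rowsK_spec r (c + 1) hr E hE _ s 0 _ (by simp)
    (Rp_one hE c) h
  rw [zero_add] at hR
  obtain ⟨st', hI⟩ := runK_spec' r (c + 1) hr E hE s f 0 row [] hlen (by omega) hR
    (Inv_nil _ _) h1
  rw [zero_add] at hI
  obtain ⟨m, rfl⟩ := Nat.exists_eq_add_of_le hs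
  have h2 := Inv_pos (c + 1) (fun n k => shE E (s + n) k) f st' hI K m hK (by omega)
  refine lt_of_lt_of_eq h2 ?_
  unfold ini
  congr 1
  ext i j
  simp only [Matrix.of_apply]
  congr 1
  omega

/-- **First columns, in segments.** -/
theorem first_columns_seg (r C n1 : ℕ) (hr : 1 ≤ r)
    (hini0 : ∀ (E : ℕ → ℕ → ℤ), IsE r E → ∀ K n, 1 ≤ K → K ≤ C → n + 1 < n1 →
      0 < ini (shE E) K n)
    (hcond : ∀ K, 1 ≤ K → K ≤ C → 2 * r * K * (K + 1) * (n1 + K * K) * (K - 1) ^ n1 ≤ K ^ n1)
    (E : ℕ → ℕ → ℤ) (hE : IsE r E) :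
    (∀ m : ℕ, ∀ f g : Fin m → ℕ, StrictMono f → StrictMono g → (∀ j, g j < C) →
      0 ≤ Matrix.det (Matrix.of fun i j => E (f i) (g j))) ∧
    (∀ n K : ℕ, K ≤ C → 0 < Matrix.det (Matrix.of fun i j : Fin K => E (n + i + 1) j)) := by
  have hini : ∀ K n, K ≤ C → 0 < ini (shE E) K n := by
    intro K n hK
    rcases Nat.eq_zero_or_pos K with h0 | h0
    · subst h0
      simp [ini]
    rcases Nat.lt_or_ge (n + 1) n1 with h | h
    · exact hini0 E hE K n h0 hK h
    · rw [ini_cast]
      have key := deep_cond r K K n1 hr h0 (cond_of_nat r K K n1 h0 (hcond K h0 hK)) E hE le_rfl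
        (fun i : Fin K => n + 1 + (i : ℕ)) (fun j : Fin K => (j : ℕ))
        (fun i j hij => by
          have : (i : ℕ) < j := hij
          show n + 1 + (i : ℕ) < n + 1 + (j : ℕ)
          omega)
        (fun i j hij => hij) (fun i => by show n1 ≤ n + 1 + (i : ℕ); omega) (fun j => j.2)
      exact_mod_cast key
  refine ⟨redC hE C hini, fun n K hK => ?_⟩
  have h1 := hini K n hK
  rw [ini_cast] at h1
  have h2 : (Matrix.of fun i j : Fin K => E (n + i + 1) j) =
      Matrix.of fun i j : Fin K => E (n + 1 + i) j := by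
    ext i j
    simp only [Matrix.of_apply]
    congr 1
    omega
  rw [h2]
  exact_mod_cast h1

end Pool.Agent.H48.TP
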