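import Pool.Agent.H48.TP.S32A
import Pool.Agent.H48.TP.S32B
import Pool.Agent.H48.TP.S32C
import Pool.Agent.H48.TP.S32D
import Pool.Agent.H48.TP.S32E
import Pool.Agent.H48.TP.S32F
import Pool.Agent.H48.TP.S32G
import Pool.Agent.H48.TP.S32H
import Pool.Agent.H48.TP.S32I
import Pool.Agent.H48.TP.SegS

/-!
# The first thirty-two columns for `r = 1`
-/

set_option autoImplicit false

namespace Pool.Agent.H48.TP

open Finset Pool.Agent.H37.TPC

theorem cond32 : ∀ K, K < 33 → 1 ≤ K →
    2 * 1 * K * (K + 1) * (472 + K * K) * (K - 1) ^ 472 ≤ K ^ 472 := by decide +kernel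

/-- All initial minors of order at most thirty-two of the Eulerian triangle are positive. -/
theorem ini32 (E : ℕ → ℕ → ℤ) (hE : IsE 1 E) (K n : ℕ) (hK : K ≤ 32) :
    0 < ini (shE E) K n := by
  rcases Nat.eq_zero_or_pos K with h0 | h0
  · subst h0
    simp [ini]
  rcases Nat.lt_or_ge (n + 1) 472 with h | h
  · rcases Nat.lt_or_ge n 60 with h60 | h60
    · exact seg_pos 1 0 91 31 le_rfl sg0 E hE K n hK (by omega) (by omega)
    rcases Nat.lt_or_ge n 110 with h110 | h110
    · exact seg_pos 1 60 81 31 le_rfl sg60 E hE K n hK (by omega) (by omega)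
    rcases Nat.lt_or_ge n 150 with h150 | h150
    · exact seg_pos 1 110 71 31 le_rfl sg110 E hE K n hK (by omega) (by omega)
    rcases Nat.lt_or_ge n 185 with h185 | h185
    · exact seg_pos 1 150 66 31 le_rfl sg150 E hE K n hK (by omega) (by omega)
    rcases Nat.lt_or_ge n 215 with h215 | h215
    · exact seg_pos 1 185 61 31 le_rfl sg185 E hE K n hK (by omega) (by omega)
    rcases Nat.lt_or_ge n 245 with h245 | h245
    · exact seg_pos 1 215 61 31 le_rfl sg215 E hE K n hK (by omega) (by omega)
    rcases Nat.lt_or_ge n 272 with h272 | h272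
    · exact seg_pos 1 245 58 31 le_rfl sg245 E hE K n hK (by omega) (by omega)
    rcases Nat.lt_or_ge n 297 with h297 | h297
    · exact seg_pos 1 272 56 31 le_rfl sg272 E hE K n hK (by omega) (by omega)
    rcases Nat.lt_or_ge n 321 with h321 | h321
    · exact seg_pos 1 297 55 31 le_rfl sg297 E hE K n hK (by omega) (by omega)
    rcases Nat.lt_or_ge n 344 with h344 | h344
    · exact seg_pos 1 321 54 31 le_rfl sg321 E hE K n hK (by omega) (by omega)
    rcases Nat.lt_or_ge n 366 with h366 | h366
    · exact seg_pos 1 344 53 31 le_rfl sg344 E hE K n hK (by omega) (by omega)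
    rcases Nat.lt_or_ge n 387 with h387 | h387
    · exact seg_pos 1 366 52 31 le_rfl sg366 E hE K n hK (by omega) (by omega)
    rcases Nat.lt_or_ge n 407 with h407 | h407
    · exact seg_pos 1 387 51 31 le_rfl sg387 E hE K n hK (by omega) (by omega)
    rcases Nat.lt_or_ge n 426 with h426 | h426
    · exact seg_pos 1 407 50 31 le_rfl sg407 E hE K n hK (by omega) (by omega)
    rcases Nat.lt_or_ge n 445 with h445 | h445
    · exact seg_pos 1 426 50 31 le_rfl sg426 E hE K n hK (by omega) (by omega)
    rcases Nat.lt_or_ge n 458 with h458 | h458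
    · exact seg_pos 1 445 44 31 le_rfl sg445 E hE K n hK (by omega) (by omega)
    exact seg_pos 1 458 44 31 le_rfl sg458 E hE K n hK (by omega) (by omega)
  · rw [ini_cast]
    have key := deep_cond 1 K K 472 le_rfl h0 (cond_of_nat 1 K K 472 h0
      (cond32 K (by omega) h0)) E hE le_rfl
      (fun i : Fin K => n + 1 + (i : ℕ)) (fun j : Fin K => (j : ℕ))
      (fun i j hij => by
        have : (i : ℕ) < j := hij
        show n + 1 + (i : ℕ) < n + 1 + (j : ℕ)
        omega)
      (fun i j hij => hij) (fun i => by show 472 ≤ n + 1 + (i : ℕ); omega) (fun j => j.2)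
    exact_mod_cast key

end Pool.Agent.H48.TP
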