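import Mathlib

/-!
# From solid minors to all minors, strict version

If all minors of an array on consecutive rows and consecutive columns are positive (rows at least
`n1`, columns below `Q`, order at most `K`), then all minors of order `K` of this block are positive.
-/

set_option autoImplicit false

namespace Pool.Agent.H48.TP

open Matrix Finset

/-- one step of elimination -/
theorem red (a : ℕ → ℕ → ℝ) (K : ℕ) (f : Fin (K + 1) → ℕ) (h : ∀ i, a (f i) 0 ≠ 0) :
    (Matrix.of fun i l : Fin (K + 1) => a (f i) l).det =
      (∏ i, a (f i) 0) * (Matrix.of fun i l : Fin K =>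
        a (f i.succ) (l + 1) / a (f i.succ) 0 -
          a (f i.castSucc) (l + 1) / a (f i.castSucc) 0).det := by
  set B : Matrix (Fin (K + 1)) (Fin (K + 1)) ℝ :=
    Matrix.of fun i l => a (f i) l / a (f i) 0 with hB
  have h1 : (Matrix.of fun i l : Fin (K + 1) => a (f i) l).det =
      (∏ i, a (f i) 0) * B.det := by
    rw [← Matrix.det_mul_column]
    congr 1
    ext i l
    simp only [Matrix.of_apply, hB]
    rw [mul_div_cancel₀ _ (h i)]
  rw [h1]
  congr 1
  set B' : Matrix (Fin (K + 1)) (Fin (K + 1)) ℝ := Matrix.of fun i l =>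
    Fin.cases (B 0 l) (fun i' : Fin K => B i'.succ l - B i'.castSucc l) i with hB'
  have h2 : B.det = B'.det := by
    apply Matrix.det_eq_of_forall_row_eq_smul_add_pred (fun _ => (1 : ℝ))
    · intro j
      simp [hB']
    · intro i j
      simp [hB']
  rw [h2, Matrix.det_succ_column_zero, Fin.sum_univ_succ]
  have h3 : ∀ i : Fin K, B' i.succ 0 = 0 := by
    intro i
    simp [hB', hB, div_self (h _)]
  have h4 : B' 0 0 = 1 := by
    simp [hB', hB, div_self (h _)]
  simp only [h3, h4, mul_zero, zero_mul, Finset.sum_const_zero, add_zero, Fin.val_zero,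
    pow_zero, one_mul]
  congr 1

/-- positivity of the minors with the first columns and arbitrary rows -/
theorem rows_pos : ∀ (K M : ℕ) (a : ℕ → ℕ → ℝ),
    (∀ j n, j ≤ K → n + j ≤ M → 0 < (Matrix.of fun i l : Fin j => a (n + i) l).det) →
    ∀ f : Fin K → ℕ, StrictMono f → (∀ i, f i < M) →
      0 < (Matrix.of fun i l : Fin K => a (f i) l).det := by
  intro K
  induction K with
  | zero => intro M a _ f _ _; simp
  | succ K ih =>
    intro M a h f hf hM
    have h0 : ∀ n, n < M → 0 < a n 0 := by
      intro n hn
      have := h 1 n (by omega) (by omega)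
      simpa using this
    obtain ⟨M, rfl⟩ : ∃ M', M = M' + 1 := ⟨M - 1, by have := hM 0; omega⟩
    set c : ℕ → ℕ → ℝ := fun n k => a (n + 1) (k + 1) / a (n + 1) 0 - a n (k + 1) / a n 0 with hc
    have hcpos : ∀ j n, j ≤ K → n + j ≤ M → 0 < (Matrix.of fun i l : Fin j => c (n + i) l).det := by
      intro j n hj hn
      have h1 := h (j + 1) n (by omega) (by omega)
      have hne : ∀ i : Fin (j + 1), 0 < a (n + (i : ℕ)) 0 := fun i => h0 _ (by omega)
      rw [red a j (fun i : Fin (j + 1) => n + (i : ℕ)) (fun i => (hne i).ne')] at h1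
      have h2 := (mul_pos_iff_of_pos_left (Finset.prod_pos fun i _ => hne i)).mp h1
      refine lt_of_lt_of_eq h2 ?_
      congr 1
    rw [red a K f (fun i => (h0 _ (hM i)).ne')]
    apply mul_pos (Finset.prod_pos fun i _ => h0 _ (hM i))
    have hsum : (Matrix.of fun i l : Fin K => a (f i.succ) (l + 1) / a (f i.succ) 0 -
        a (f i.castSucc) (l + 1) / a (f i.castSucc) 0).det =
        ∑ r ∈ Fintype.piFinset (fun i : Fin K => Finset.Ico (f i.castSucc) (f i.succ)),
          (Matrix.of fun i l : Fin K => c (r i) l).det := by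
      have e1 : (Matrix.of fun i l : Fin K => a (f i.succ) (l + 1) / a (f i.succ) 0 -
        a (f i.castSucc) (l + 1) / a (f i.castSucc) 0) =
        fun i : Fin K => ∑ q ∈ Finset.Ico (f i.castSucc) (f i.succ), (fun l : Fin K => c q l) := by
        ext i l
        have hle : f i.castSucc ≤ f i.succ := (hf (Fin.castSucc_lt_succ)).le
        rw [Finset.sum_apply, Finset.sum_Ico_eq_sub _ hle]
        simp only [hc, Matrix.of_apply]
        rw [Finset.sum_range_sub (fun n => a n ((l : ℕ) + 1) / a n 0),
          Finset.sum_range_sub (fun n => a n ((l : ℕ) + 1) / a n 0)]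
        ring
      rw [e1]
      exact (Matrix.detRowAlternating (n := Fin K) (R := ℝ)).toMultilinearMap.map_sum_finset
        (fun _ q => fun l : Fin K => c q l) _
    rw [hsum]
    apply Finset.sum_pos
    · intro r hr
      rw [Fintype.mem_piFinset] at hr
      apply ih M c hcpos
      · intro i j hij
        have h1 := (Finset.mem_Ico.1 (hr i)).2
        have h2 := (Finset.mem_Ico.1 (hr j)).1
        have h3 : f i.succ ≤ f j.castSucc := hf.monotone (by
          rw [Fin.le_def]; simp only [Fin.val_succ, Fin.val_castSucc]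
          exact hij)
        omega
      · intro i
        have h1 := (Finset.mem_Ico.1 (hr i)).2
        have := hM i.succ
        omega
    · rw [Fintype.piFinset_nonempty]
      intro i
      rw [Finset.nonempty_Ico]
      exact hf (Fin.castSucc_lt_succ)

/-- **Fekete, strict version.** -/
theorem fekete (n1 Q : ℕ) (a : ℕ → ℕ → ℝ) {K : ℕ}
    (h : ∀ j n k, j ≤ K → n1 ≤ n → k + j ≤ Q →
      0 < (Matrix.of fun i l : Fin j => a (n + i) (k + l)).det)
    (f g : Fin K → ℕ) (hf : StrictMono f) (hg : StrictMono g) (hfn : ∀ i, n1 ≤ f i)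
    (hgQ : ∀ j, g j < Q) : 0 < (Matrix.of fun i j : Fin K => a (f i) (g j)).det := by
  set a' : ℕ → ℕ → ℝ := fun k i => if hi : i < K then a (f ⟨i, hi⟩) k else 0 with ha'
  have key : 0 < (Matrix.of fun i l : Fin K => a' (g i) l).det := by
    apply rows_pos K Q a' _ g hg hgQ
    intro j k hj hk
    set f' : Fin j → ℕ := fun l => f (Fin.castLE hj l) - n1 with hf'
    have h1 : 0 < (Matrix.of fun i l : Fin j => a (n1 + f' i) (k + l)).det := by
      apply rows_pos j (Finset.univ.sup f' + 1) (fun n l => a (n1 + n) (k + l))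
      · intro j' n hj' _
        have := h j' (n1 + n) k (by omega) (by omega) (by omega)
        simpa only [add_assoc] using this
      · intro x y hxy
        have h2 : f (Fin.castLE hj x) < f (Fin.castLE hj y) := hf (by
          rw [Fin.lt_def]; exact hxy)
        have h3 := hfn (Fin.castLE hj x)
        simp only [hf']
        omega
      · intro i
        exact Nat.lt_succ_of_le (Finset.le_sup (Finset.mem_univ i))
    rw [← Matrix.det_transpose] at h1
    refine lt_of_lt_of_eq h1 ?_
    congr 1
    ext i l
    have h3 := hfn (Fin.castLE hj l)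
    have h4 : (l : ℕ) < K := lt_of_lt_of_le l.2 hj
    simp only [Matrix.transpose_apply, Matrix.of_apply, hf', ha', dif_pos h4]
    congr 1
    rw [Nat.add_sub_of_le h3]
    rfl
  rw [← Matrix.det_transpose] at key
  refine lt_of_lt_of_eq key ?_
  congr 1
  ext i l
  simp only [Matrix.transpose_apply, Matrix.of_apply, ha', dif_pos i.2]

end Pool.Agent.H48.TP
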