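import Pool.Agent.H48.TP.Sol
import Pool.Agent.H48.TP.Fek

/-!
# Solid minors are positive; all minors are positive
-/

set_option autoImplicit false

namespace Pool.Agent.H48.TP

open PowerSeries Finset

theorem det_homotopy {K : ℕ} (A B : Matrix (Fin K) (Fin K) ℝ) (hA : 0 < A.det)
    (h : ∀ t : ℝ, 0 ≤ t → t ≤ 1 → (A + t • B).det ≠ 0) : 0 < (A + B).det := by
  by_contra hcon
  rw [not_lt] at hcon
  have hc : Continuous fun t : ℝ => (A + t • B).det := by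
    apply Continuous.matrix_det
    fun_prop
  have h1 := intermediate_value_Icc' (zero_le_one (α := ℝ)) hc.continuousOn
  have h2 : (0 : ℝ) ∈ Set.Icc ((A + (1 : ℝ) • B).det) ((A + (0 : ℝ) • B).det) := by
    constructor
    · simpa using hcon
    · simpa using hA.le
  obtain ⟨t, ht, ht2⟩ := h1 h2
  exact h t ht.1 ht.2 ht2

theorem solid (r Q a K n : ℕ) (hr : 1 ≤ r) (c : ℕ → ℝ) (ψ : ℕ → PowerSeries ℝ) (D : Dat r Q c ψ)
    (hQ : a + K ≤ Q)
    (H : 2 * (r : ℝ) * K * (K + 1) * (n + (K : ℝ) * Q) * (((Q : ℝ) - 1) / Q) ^ n ≤ 1) :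
    0 < (Matrix.of fun i j : Fin K => uu r c ψ (n + i) (a + 1 + j)).det := by
  set A : Matrix (Fin K) (Fin K) ℝ := Matrix.of fun i j => ((a + 1 + j : ℕ) : ℝ) ^ (i : ℕ) with hA
  set B : Matrix (Fin K) (Fin K) ℝ := Matrix.of fun i j => SS r n c ψ (a + 1 + j) i with hB
  have h1 : (Matrix.of fun i j : Fin K => uu r c ψ (n + i) (a + 1 + j)).det =
      (∏ j : Fin K, (c (a + 1 + j) * ((a + 1 + j : ℕ) : ℝ) ^ n)) * (A + B).det := by
    rw [← Matrix.det_mul_row]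
    congr 1
    ext i j
    simp only [Matrix.of_apply, Matrix.add_apply, hA, hB]
    exact uu_eq D _ _ (by omega)
  rw [h1]
  apply mul_pos
  · apply Finset.prod_pos
    intro j _
    have := D.cpos (a + 1 + j) (by omega)
    positivity
  · apply det_homotopy
    · have h2 : A = (Matrix.vandermonde fun j : Fin K => ((a + 1 + j : ℕ) : ℝ)).transpose := by
        ext i j
        simp [hA, Matrix.vandermonde_apply]
      rw [h2, Matrix.det_transpose, Matrix.det_vandermonde]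
      apply Finset.prod_pos
      intro i _
      apply Finset.prod_pos
      intro j hj
      rw [Finset.mem_Ioi] at hj
      rw [sub_pos, Nat.cast_lt]
      have : (i : ℕ) < j := hj
      omega
    · intro t ht0 ht1 hdet
      obtain ⟨p, hp, hp2⟩ := Matrix.exists_vecMul_eq_zero_iff.2 hdet
      refine key r Q a K n hr c ψ D hQ H t ht0 ht1 p hp ?_
      intro j
      have h3 := congrFun hp2 j
      simp only [Matrix.vecMul, dotProduct, Matrix.add_apply, Matrix.smul_apply, hA, hB,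
        Matrix.of_apply, smul_eq_mul, Pi.zero_apply] at h3
      exact h3

/-- the condition propagates upwards -/
theorem cond_mono (r Q K : ℕ) (hQ : 1 ≤ Q) (hK : 1 ≤ K) (n m : ℕ) (hnm : n ≤ m)
    (H : 2 * (r : ℝ) * K * (K + 1) * (n + (K : ℝ) * Q) * (((Q : ℝ) - 1) / Q) ^ n ≤ 1) :
    2 * (r : ℝ) * K * (K + 1) * (m + (K : ℝ) * Q) * (((Q : ℝ) - 1) / Q) ^ m ≤ 1 := by
  induction m, hnm using Nat.le_induction with
  | base => exact H
  | succ m _ ih =>
    refine le_trans ?_ ih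
    have hQr : (1 : ℝ) ≤ Q := by exact_mod_cast hQ
    have hKr : (1 : ℝ) ≤ K := by exact_mod_cast hK
    have hm : (0 : ℝ) ≤ m := Nat.cast_nonneg m
    have h0 : (0 : ℝ) ≤ ((Q : ℝ) - 1) / Q := div_nonneg (by linarith) (by linarith)
    have h1 : (((m + 1 : ℕ) : ℝ) + (K : ℝ) * Q) * (((Q : ℝ) - 1) / Q) ≤ m + (K : ℝ) * Q := by
      rw [mul_div_assoc', div_le_iff₀ (by linarith)]
      push_cast
      nlinarith
    have h2 : (0 : ℝ) ≤ 2 * (r : ℝ) * K * (K + 1) * (((Q : ℝ) - 1) / Q) ^ m := by positivity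
    calc 2 * (r : ℝ) * K * (K + 1) * (((m + 1 : ℕ) : ℝ) + (K : ℝ) * Q) *
          (((Q : ℝ) - 1) / Q) ^ (m + 1) =
          (2 * (r : ℝ) * K * (K + 1) * (((Q : ℝ) - 1) / Q) ^ m) *
            ((((m + 1 : ℕ) : ℝ) + (K : ℝ) * Q) * (((Q : ℝ) - 1) / Q)) := by ring
      _ ≤ (2 * (r : ℝ) * K * (K + 1) * (((Q : ℝ) - 1) / Q) ^ m) * (m + (K : ℝ) * Q) :=
          mul_le_mul_of_nonneg_left h1 h2
      _ = _ := by ring

/-- the condition is monotone in the order -/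
theorem cond_order (r Q j K : ℕ) (hQ : 1 ≤ Q) (hjK : j ≤ K) (n : ℕ)
    (H : 2 * (r : ℝ) * K * (K + 1) * (n + (K : ℝ) * Q) * (((Q : ℝ) - 1) / Q) ^ n ≤ 1) :
    2 * (r : ℝ) * j * (j + 1) * (n + (j : ℝ) * Q) * (((Q : ℝ) - 1) / Q) ^ n ≤ 1 := by
  refine le_trans ?_ H
  have hQr : (1 : ℝ) ≤ Q := by exact_mod_cast hQ
  have h0 : (0 : ℝ) ≤ ((Q : ℝ) - 1) / Q := div_nonneg (by linarith) (by linarith)
  have hj : (j : ℝ) ≤ K := by exact_mod_cast hjK
  gcongr

/-- natural number form of the condition -/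
theorem cond_of_nat (r Q K n : ℕ) (hQ : 1 ≤ Q)
    (H : 2 * r * K * (K + 1) * (n + K * Q) * (Q - 1) ^ n ≤ Q ^ n) :
    2 * (r : ℝ) * K * (K + 1) * (n + (K : ℝ) * Q) * (((Q : ℝ) - 1) / Q) ^ n ≤ 1 := by
  have hQr : (0 : ℝ) < Q := by exact_mod_cast hQ
  rw [div_pow, mul_div_assoc', div_le_one (by positivity)]
  have h1 : ((2 * r * K * (K + 1) * (n + K * Q) * (Q - 1) ^ n : ℕ) : ℝ) ≤ ((Q ^ n : ℕ) : ℝ) := by
    exact_mod_cast H
  push_cast [Nat.cast_sub hQ] at h1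
  exact h1

/-- all minors of order at most `K` of the block are positive -/
theorem all_pos (r Q K n1 : ℕ) (hr : 1 ≤ r) (hQ : 1 ≤ Q) (c : ℕ → ℝ) (ψ : ℕ → PowerSeries ℝ)
    (D : Dat r Q c ψ)
    (H : 2 * (r : ℝ) * K * (K + 1) * (n1 + (K : ℝ) * Q) * (((Q : ℝ) - 1) / Q) ^ n1 ≤ 1)
    {m : ℕ} (hm : m ≤ K) (f g : Fin m → ℕ) (hf : StrictMono f) (hg : StrictMono g)
    (hfn : ∀ i, n1 ≤ f i) (hgQ : ∀ j, g j < Q) :
    0 < (Matrix.of fun i j : Fin m => uu r c ψ (f i) (g j + 1)).det := by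
  refine fekete n1 Q (fun n k => uu r c ψ n (k + 1)) ?_ f g hf hg hfn hgQ
  intro j n k hj hn hk
  rcases Nat.eq_zero_or_pos j with h0 | h0
  · subst h0
    simp
  have h1 := solid r Q k j n hr c ψ D hk
    (cond_mono r Q j hQ h0 n1 n hn (cond_order r Q j K hQ (hj.trans hm) n1 H))
  refine lt_of_lt_of_eq h1 ?_
  congr 1
  ext i l
  simp only [Matrix.of_apply]
  congr 1
  omega

end Pool.Agent.H48.TP
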