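import Pool.Agent.H48.TP.Bd

/-!
# The Euler derivation and the generating series of the columns
-/

set_option autoImplicit false

namespace Pool.Agent.H48.TP

open PowerSeries Finset

/-- the Euler derivation `x d/dx` -/
noncomputable def dd (f : PowerSeries ℝ) : PowerSeries ℝ :=
  PowerSeries.mk fun n => (n : ℝ) * coeff n f

theorem coeff_dd (n : ℕ) (f : PowerSeries ℝ) : coeff n (dd f) = (n : ℝ) * coeff n f := by
  rw [dd, PowerSeries.coeff_mk]

theorem dd_add (f g : PowerSeries ℝ) : dd (f + g) = dd f + dd g := by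
  ext n
  simp only [coeff_dd, map_add]
  ring

theorem dd_sum {ι : Type*} (s : Finset ι) (f : ι → PowerSeries ℝ) :
    dd (∑ i ∈ s, f i) = ∑ i ∈ s, dd (f i) := by
  ext n
  simp only [coeff_dd, map_sum, Finset.mul_sum]

theorem dd_mul (f g : PowerSeries ℝ) : dd (f * g) = dd f * g + f * dd g := by
  ext n
  rw [coeff_dd, map_add, PowerSeries.coeff_mul, PowerSeries.coeff_mul, PowerSeries.coeff_mul,
    Finset.mul_sum, ← Finset.sum_add_distrib]
  refine Finset.sum_congr rfl fun p hp => ?_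
  rw [HasAntidiagonal.mem_antidiagonal] at hp
  rw [coeff_dd, coeff_dd, ← hp]
  push_cast
  ring

theorem dd_C_mul (x : ℝ) (f : PowerSeries ℝ) : dd (C x * f) = C x * dd f := by
  ext n
  rw [coeff_dd, PowerSeries.coeff_C_mul, PowerSeries.coeff_C_mul, coeff_dd]
  ring

theorem dd_X_pow (n : ℕ) : dd (X ^ n : PowerSeries ℝ) = C (n : ℝ) * X ^ n := by
  ext m
  rw [coeff_dd, PowerSeries.coeff_C_mul, PowerSeries.coeff_X_pow]
  split_ifs with h
  · rw [h]
  · simp

theorem dd_one_sub : dd (1 - X : PowerSeries ℝ) = -X := by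
  ext n
  rw [coeff_dd, map_sub, map_neg, PowerSeries.coeff_one, PowerSeries.coeff_X]
  rcases n with _ | n
  · simp
  · rcases n with _ | n
    · simp
    · simp

theorem dd_one_sub_pow (m : ℕ) :
    dd ((1 - X : PowerSeries ℝ) ^ (m + 1)) = -(C ((m : ℝ) + 1) * X * (1 - X) ^ m) := by
  induction m with
  | zero => simp [dd_one_sub]
  | succ m ih =>
    rw [pow_succ, dd_mul, ih, dd_one_sub]
    have : (C (((m + 1 : ℕ) : ℝ) + 1) : PowerSeries ℝ) = C ((m : ℝ) + 1) + 1 := by
      push_cast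
      rw [map_add, map_one]
    rw [this]
    ring

/-- the geometric series -/
noncomputable def J : PowerSeries ℝ := PowerSeries.mk fun _ => 1

theorem J_mul : J * (1 - X) = 1 := by
  have := PowerSeries.mk_one_mul_one_sub_eq_one ℝ
  exact this

theorem J_pow_mul (s : ℕ) : J ^ s * (1 - X) ^ s = 1 := by
  rw [← mul_pow, J_mul, one_pow]

theorem coeff_J_pow_nonneg (s n : ℕ) : 0 ≤ coeff n (J ^ s) := by
  induction s generalizing n with
  | zero =>
    rw [pow_zero, PowerSeries.coeff_one]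
    split_ifs <;> norm_num
  | succ s ih =>
    rw [pow_succ, PowerSeries.coeff_mul]
    refine Finset.sum_nonneg fun p _ => mul_nonneg (ih _) ?_
    rw [J, PowerSeries.coeff_mk]
    exact zero_le_one

/-- the transformed rows -/
noncomputable def W (s : ℕ) : ℕ → PowerSeries ℝ
  | 0 => X * J
  | m + 1 => J ^ s * dd (W s m)

/-- the rows -/
noncomputable def U (s m : ℕ) : PowerSeries ℝ := (1 - X) ^ ((s + 1) * m + 1) * W s m

theorem U_zero (s : ℕ) : U s 0 = X := by
  rw [U, W, mul_zero, zero_add, pow_one, mul_comm X J, ← mul_assoc, mul_comm (1 - X) J, J_mul,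
    one_mul]

theorem U_succ (s m : ℕ) : U s (m + 1) =
    dd (U s m) + X * (C ((((s + 1) * m : ℕ) : ℝ) + 1) * U s m - dd (U s m)) := by
  have e1 : (s + 1) * (m + 1) + 1 = ((s + 1) * m + 1 + 1) + s := by ring
  have h1 : U s (m + 1) = (1 - X) ^ ((s + 1) * m + 1 + 1) * dd (W s m) := by
    rw [U, W, e1, pow_add, mul_assoc, ← mul_assoc ((1 - X) ^ s), mul_comm ((1 - X) ^ s) (J ^ s),
      J_pow_mul, one_mul]
  rw [h1]
  simp only [U]
  rw [dd_mul, dd_one_sub_pow]
  ring

theorem coeff_U_zero (s m : ℕ) : coeff 0 (U s m) = 0 := by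
  induction m with
  | zero => rw [U_zero]; simp
  | succ m ih =>
    rw [U_succ, map_add, coeff_dd, PowerSeries.coeff_zero_X_mul]
    simp

theorem coeff_U_succ (s m k : ℕ) : coeff (k + 1) (U s (m + 1)) =
    ((k : ℝ) + 1) * coeff (k + 1) (U s m) +
      (((s : ℝ) + 1) * m + 1 - k) * coeff k (U s m) := by
  rw [U_succ, map_add, coeff_dd, PowerSeries.coeff_succ_X_mul, map_sub, PowerSeries.coeff_C_mul,
    coeff_dd]
  push_cast
  ring

/-- the triangle in terms of the series -/
theorem E_eq (s : ℕ) (E : ℕ → ℕ → ℤ) (h00 : E 0 0 = 1) (h0 : ∀ k, E 0 (k + 1) = 0)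
    (hc : ∀ n, E (n + 1) 0 = E n 0)
    (hs : ∀ n k : ℕ, E (n + 1) (k + 1) =
      ((k : ℤ) + 2) * E n (k + 1) + (((s + 1 : ℕ) : ℤ) * (n : ℤ) - (k : ℤ)) * E n k) :
    ∀ n k, ((E n k : ℤ) : ℝ) = coeff (k + 1) (U s n) := by
  intro n
  induction n with
  | zero =>
    intro k
    rw [U_zero, PowerSeries.coeff_X]
    rcases k with _ | k
    · simp [h00]
    · simp [h0]
  | succ n ih =>
    intro k
    rcases k with _ | k
    · rw [hc, ih, coeff_U_succ, coeff_U_zero]
      simp
    · rw [hs, coeff_U_succ]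
      push_cast
      rw [ih, ih]
      ring

end Pool.Agent.H48.TP
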