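import Pool.Agent.H48.TP.Bd

/-!
# Bounds through Lagrange interpolation at consecutive integers
-/

set_option autoImplicit false

namespace Pool.Agent.H48.TP

open PowerSeries Finset

/-- the weight of a point with respect to the nodes `a + 1, …, a + K` -/
noncomputable def G (a K : ℕ) (z : ℝ) : ℝ := ∏ i ∈ range K, max |z - ((a : ℝ) + 1 + i)| 1

theorem G_pos (a K : ℕ) (z : ℝ) : 0 < G a K z :=
  Finset.prod_pos fun _ _ => lt_of_lt_of_le zero_lt_one (le_max_right _ _)

theorem G_shift (a K : ℕ) (z : ℝ) : G a K (z - 1) ≤ ((K : ℝ) + 1) * G a K z := by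
  set F : ℕ → ℝ := fun i => max |z - ((a : ℝ) + 1 + i)| 1 with hF
  have h1 : G a K (z - 1) = ∏ i ∈ range K, F (i + 1) := by
    unfold G
    refine Finset.prod_congr rfl fun i _ => ?_
    simp only [hF]
    congr 2
    push_cast; ring
  have h2 : G a K z = ∏ i ∈ range K, F i := rfl
  have h3 : G a K (z - 1) * F 0 = G a K z * F K := by
    rw [h1, h2, ← Finset.prod_range_succ' , ← Finset.prod_range_succ]
  have h4 : F K ≤ ((K : ℝ) + 1) * F 0 := by
    have hm : |z - ((a : ℝ) + 1)| ≤ F 0 := by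
      simp only [hF]; push_cast; rw [add_zero]; exact le_max_left _ _
    have hm1 : 1 ≤ F 0 := le_max_right _ _
    have hK : (0 : ℝ) ≤ K := Nat.cast_nonneg K
    have hz : |z - ((a : ℝ) + 1 + K)| ≤ |z - ((a : ℝ) + 1)| + K := by
      have : z - ((a : ℝ) + 1 + K) = (z - ((a : ℝ) + 1)) + (-(K : ℝ)) := by ring
      rw [this]
      refine (abs_add_le _ _).trans ?_
      rw [abs_neg, abs_of_nonneg hK]
    apply max_le
    · nlinarith
    · nlinarith
  have h5 : 0 < F 0 := lt_of_lt_of_le zero_lt_one (le_max_right _ _)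
  have h6 := G_pos a K z
  have h7 : G a K (z - 1) * F 0 ≤ (((K : ℝ) + 1) * G a K z) * F 0 := by
    rw [h3]; nlinarith
  exact le_of_mul_le_mul_right h7 h5

theorem G_shifts (a K : ℕ) (z : ℝ) (l : ℕ) : G a K (z - l) ≤ ((K : ℝ) + 1) ^ l * G a K z := by
  induction l with
  | zero => simp
  | succ l ih =>
    have h1 := G_shift a K (z - l)
    have h2 : z - ((l + 1 : ℕ) : ℝ) = z - l - 1 := by push_cast; ring
    rw [h2]
    refine h1.trans ?_
    rw [pow_succ', mul_assoc]
    exact mul_le_mul_of_nonneg_left ih (by positivity)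

/-- at a node -/
theorem G_node (a K q : ℕ) (hq : q < K) : G a K ((a : ℝ) + 1 + q) =
    ∏ i ∈ (range K).erase q, |((a : ℝ) + 1 + q) - ((a : ℝ) + 1 + i)| := by
  unfold G
  rw [← Finset.mul_prod_erase _ _ (Finset.mem_range.2 hq)]
  rw [sub_self, abs_zero, max_eq_right zero_le_one, one_mul]
  refine Finset.prod_congr rfl fun i hi => ?_
  have hne : i ≠ q := (Finset.mem_erase.1 hi).1
  apply max_eq_left
  have h1 : ((a : ℝ) + 1 + q) - ((a : ℝ) + 1 + i) = (((q : ℤ) - (i : ℤ) : ℤ) : ℝ) := by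
    push_cast; ring
  rw [h1, ← Int.cast_abs]
  have h2 : (1 : ℤ) ≤ |(q : ℤ) - (i : ℤ)| := by
    apply Int.one_le_abs
    omega
  exact_mod_cast h2

theorem Bd.sum {L : ℕ} {ι : Type*} (s : Finset ι) (B : ι → ℝ) (c : ℝ)
    (f : ι → PowerSeries ℝ) (h : ∀ i ∈ s, Bd L (B i) c (f i)) :
    Bd L (∑ i ∈ s, B i) c (∑ i ∈ s, f i) := by
  intro l hl
  rw [map_sum, Finset.sum_mul]
  exact (Finset.abs_sum_le_sum_abs _ _).trans (Finset.sum_le_sum fun i hi => h i hi l hl)

theorem Bd.smulC {L : ℕ} {B c : ℝ} {f : PowerSeries ℝ} (x : ℝ) (h : Bd L B c f) :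
    Bd L (|x| * B) c (C x * f) := by
  intro l hl
  rw [PowerSeries.coeff_C_mul, abs_mul, mul_assoc]
  exact mul_le_mul_of_nonneg_left (h l hl) (abs_nonneg x)

/-- the substitution -/
noncomputable def sub (r : ℕ) (y : ℝ) (P : Polynomial ℝ) : PowerSeries ℝ :=
  Polynomial.aeval (C y * (1 - X) ^ r : PowerSeries ℝ) P

theorem sub_bound (r a K L : ℕ) (y : ℝ) (hy : 1 ≤ y) (P : Polynomial ℝ)
    (hP : P.degree < (K : ℕ)) (μ : ℝ) (hμ : 0 ≤ μ)
    (hPμ : ∀ q, q < K → |P.eval ((a : ℝ) + 1 + q)| ≤ μ * G a K ((a : ℝ) + 1 + q)) :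
    Bd L (K * (μ * G a K y)) (((K : ℝ) - 1) * (r * y)) (sub r y P) := by
  set v : ℕ → ℝ := fun i => (a : ℝ) + 1 + i with hv
  have hinj : Set.InjOn v (range K : Finset ℕ) := by
    intro i _ j _ hij
    simp only [hv, add_right_inj, Nat.cast_inj] at hij
    exact hij
  have hdeg : P.degree < ((range K).card : ℕ) := by rwa [card_range]
  have h1 := Lagrange.eq_interpolate hinj hdeg
  rw [Lagrange.interpolate_apply] at h1
  have h2 : sub r y P = ∑ q ∈ range K, C (P.eval (v q)) *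
      ∏ i ∈ (range K).erase q, (C ((v q - v i)⁻¹) * (C y * (1 - X) ^ r - C (v i))) := by
    conv_lhs => rw [h1]
    unfold sub
    rw [map_sum]
    refine Finset.sum_congr rfl fun q _ => ?_
    rw [map_mul, Polynomial.aeval_C, Lagrange.basis, map_prod]
    congr 1
    refine Finset.prod_congr rfl fun i _ => ?_
    rw [Lagrange.basisDivisor, map_mul, map_sub, Polynomial.aeval_C, Polynomial.aeval_X,
      Polynomial.aeval_C]
    rfl
  rw [h2]
  have h3 : (K : ℝ) * (μ * G a K y) = ∑ q ∈ range K, (μ * G a K y) := by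
    rw [Finset.sum_const, card_range, nsmul_eq_mul]
  rw [h3]
  apply Bd.sum
  intro q hq
  rw [Finset.mem_range] at hq
  have h4 : Bd L (∏ i ∈ (range K).erase q, (|(v q - v i)⁻¹| * max |y - v i| 1))
      (∑ i ∈ (range K).erase q, (r * y : ℝ))
      (∏ i ∈ (range K).erase q, (C ((v q - v i)⁻¹) * (C y * (1 - X) ^ r - C (v i)))) := by
    apply Bd.prod
    · intro i _; positivity
    · intro i _; positivity
    · intro i _
      exact Bd.smulC _ (Bd.factor L r y (v i) hy)
  have h5 := Bd.smulC (P.eval (v q)) h4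
  have h6 : (∑ i ∈ (range K).erase q, (r * y : ℝ)) = ((K : ℝ) - 1) * (r * y) := by
    rw [Finset.sum_const, Finset.card_erase_of_mem (Finset.mem_range.2 hq), card_range,
      nsmul_eq_mul, Nat.cast_sub (by omega), Nat.cast_one]
  have h7 : |P.eval (v q)| * ∏ i ∈ (range K).erase q, (|(v q - v i)⁻¹| * max |y - v i| 1) ≤
      μ * G a K y := by
    rw [Finset.prod_mul_distrib]
    have e1 : ∏ i ∈ (range K).erase q, |(v q - v i)⁻¹| = (G a K (v q))⁻¹ := by
      rw [hv, G_node a K q hq, ← Finset.prod_inv_distrib]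
      refine Finset.prod_congr rfl fun i _ => ?_
      rw [abs_inv]
    have e2 : ∏ i ∈ (range K).erase q, max |y - v i| 1 ≤ G a K y := by
      unfold G
      rw [← Finset.mul_prod_erase _ _ (Finset.mem_range.2 hq)]
      have : (0 : ℝ) ≤ ∏ i ∈ (range K).erase q, max |y - v i| 1 :=
        Finset.prod_nonneg fun _ _ => le_trans zero_le_one (le_max_right _ _)
      exact le_mul_of_one_le_left this (le_max_right _ _)
    rw [e1]
    have hG := G_pos a K (v q)
    have e3 : |P.eval (v q)| * (G a K (v q))⁻¹ ≤ μ := by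
      rw [← div_eq_mul_inv, div_le_iff₀ hG]
      exact hPμ q hq
    rw [← mul_assoc]
    exact mul_le_mul e3 e2 (Finset.prod_nonneg fun _ _ => le_trans zero_le_one (le_max_right _ _)) hμ
  have h8 : (0 : ℝ) ≤ ∑ i ∈ (range K).erase q, (r * y : ℝ) :=
    Finset.sum_nonneg fun _ _ => by positivity
  rw [← h6]
  exact Bd.mono le_rfl h8 h7 (mul_nonneg hμ (G_pos a K y).le) le_rfl h5

end Pool.Agent.H48.TP
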