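import Pool.Agent.H48.TP.Lag

/-!
# Solid minors far below the top
-/

set_option autoImplicit false

namespace Pool.Agent.H48.TP

open PowerSeries Finset

/-- the explicit formula -/
noncomputable def uu (r : ℕ) (c : ℕ → ℝ) (ψ : ℕ → PowerSeries ℝ) (m N : ℕ) : ℝ :=
  ∑ l ∈ range N, c (N - l) * ((N - l : ℕ) : ℝ) ^ m *
    coeff l ((1 - X) ^ (r * m + 1) * ψ (N - l))

/-- the data needed -/
structure Dat (r Q : ℕ) (c : ℕ → ℝ) (ψ : ℕ → PowerSeries ℝ) : Prop where
  cpos : ∀ y, 1 ≤ y → 0 < c y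
  cmono : ∀ y z, 1 ≤ y → y ≤ z → c y ≤ c z
  psi0 : ∀ y, coeff 0 (ψ y) = 1
  psib : ∀ y L, 1 ≤ y → y + L ≤ Q → Bd L 1 (((r : ℝ) - 1) * Q) (ψ y)

/-- the perturbation -/
noncomputable def SS (r n : ℕ) (c : ℕ → ℝ) (ψ : ℕ → PowerSeries ℝ) (N i : ℕ) : ℝ :=
  ∑ l ∈ range (N - 1), c (N - (l + 1)) / c N * (((N - (l + 1) : ℕ) : ℝ) / N) ^ n *
    (((N - (l + 1) : ℕ) : ℝ) ^ i *
      coeff (l + 1) ((1 - X) ^ (r * (n + i) + 1) * ψ (N - (l + 1))))

theorem uu_eq {r Q n : ℕ} {c : ℕ → ℝ} {ψ : ℕ → PowerSeries ℝ} (D : Dat r Q c ψ) (N i : ℕ)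
    (hN : 1 ≤ N) : uu r c ψ (n + i) N = (c N * (N : ℝ) ^ n) * ((N : ℝ) ^ i + SS r n c ψ N i) := by
  obtain ⟨M, rfl⟩ : ∃ M, N = M + 1 := ⟨N - 1, by omega⟩
  have hc := D.cpos (M + 1) hN
  have hN' : (0 : ℝ) < ((M + 1 : ℕ) : ℝ) := by positivity
  unfold uu SS
  rw [Finset.sum_range_succ', mul_add (c (M + 1) * ((M + 1 : ℕ) : ℝ) ^ n), Finset.mul_sum,
    Nat.add_sub_cancel, add_comm]
  congr 1
  · rw [Nat.sub_zero, PowerSeries.coeff_mul]
    rw [Finset.Nat.antidiagonal_zero, Finset.sum_singleton]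
    simp only
    rw [coeff_zero_one_sub_pow, D.psi0, pow_add]
    ring
  · refine Finset.sum_congr rfl fun l _ => ?_
    rw [div_pow, pow_add]
    field_simp

theorem null_sum {K : ℕ} (r n : ℕ) (ψ : PowerSeries ℝ) (y : ℝ) (p : Fin K → ℝ) (l : ℕ) :
    ∑ i : Fin K, p i * (y ^ (i : ℕ) * coeff l ((1 - X) ^ (r * (n + i) + 1) * ψ)) =
      coeff l ((1 - X) ^ (r * n + 1) * ψ *
        sub r y (∑ i : Fin K, Polynomial.C (p i) * Polynomial.X ^ (i : ℕ))) := by
  unfold sub
  rw [map_sum, Finset.mul_sum, map_sum]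
  refine Finset.sum_congr rfl fun i _ => ?_
  have h0 : (Polynomial.aeval (C y * (1 - X) ^ r : PowerSeries ℝ))
      (Polynomial.C (p i) * Polynomial.X ^ (i : ℕ)) =
      (algebraMap ℝ (PowerSeries ℝ)) (p i) * (C y * (1 - X) ^ r) ^ (i : ℕ) := by
    rw [map_mul, Polynomial.aeval_C, map_pow, Polynomial.aeval_X]
  rw [h0]
  have h1 : ((1 - X : PowerSeries ℝ) ^ (r * n + 1) * ψ *
      ((algebraMap ℝ (PowerSeries ℝ)) (p i) * (C y * (1 - X) ^ r) ^ (i : ℕ))) =
      C (p i * y ^ (i : ℕ)) * ((1 - X) ^ (r * (n + i) + 1) * ψ) := by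
    have e1 : (algebraMap ℝ (PowerSeries ℝ)) (p i) = C (p i) := rfl
    rw [e1, mul_pow, ← pow_mul, ← map_pow, map_mul]
    have e2 : r * (n + i) + 1 = (r * n + 1) + r * i := by ring
    rw [e2, pow_add]
    ring
  rw [h1, PowerSeries.coeff_C_mul]
  ring

/-- the key estimate: the perturbation cannot reach the main term -/
theorem key (r Q a K n : ℕ) (hr : 1 ≤ r) (c : ℕ → ℝ) (ψ : ℕ → PowerSeries ℝ) (D : Dat r Q c ψ)
    (hQ : a + K ≤ Q)
    (H : 2 * (r : ℝ) * K * (K + 1) * (n + (K : ℝ) * Q) * (((Q : ℝ) - 1) / Q) ^ n ≤ 1)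
    (t : ℝ) (ht0 : 0 ≤ t) (ht1 : t ≤ 1) (p : Fin K → ℝ) (hp : p ≠ 0)
    (hnull : ∀ j : Fin K, ∑ i : Fin K, p i * (((a + 1 + j : ℕ) : ℝ) ^ (i : ℕ) +
      t * SS r n c ψ (a + 1 + j) i) = 0) : False := by
  set P : Polynomial ℝ := ∑ i : Fin K, Polynomial.C (p i) * Polynomial.X ^ (i : ℕ) with hPdef
  have hK : 0 < K := by
    rcases Nat.eq_zero_or_pos K with h | h
    · subst h
      exact absurd (Subsingleton.elim p 0) hp
    · exact h
  have hQ1 : 1 ≤ Q := by omega
  have hQr : (1 : ℝ) ≤ Q := by exact_mod_cast hQ1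
  have hrr : (1 : ℝ) ≤ r := by exact_mod_cast hr
  have hKr : (1 : ℝ) ≤ K := by exact_mod_cast hK
  have hKQ : (K : ℝ) ≤ Q := by exact_mod_cast (by omega : K ≤ Q)
  have hcoef : ∀ i : Fin K, P.coeff i = p i := by
    intro i
    rw [hPdef, Polynomial.finsetSum_coeff]
    simp only [Polynomial.coeff_C_mul, Polynomial.coeff_X_pow]
    rw [Finset.sum_eq_single i]
    · simp
    · intro b _ hb
      rw [if_neg, mul_zero]
      intro h
      exact hb (Fin.ext h.symm)
    · simp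
  have hdeg : P.degree < (K : ℕ) := by
    rw [hPdef]
    refine lt_of_le_of_lt (Polynomial.degree_sum_le _ _) ?_
    rw [Finset.sup_lt_iff (by exact_mod_cast WithBot.bot_lt_coe K)]
    intro i _
    refine lt_of_le_of_lt (Polynomial.degree_C_mul_X_pow_le _ _) ?_
    exact_mod_cast i.2
  have hPne : P ≠ 0 := by
    intro h
    apply hp
    ext i
    rw [← hcoef i, h]
    simp
  have heval : ∀ x : ℝ, P.eval x = ∑ i : Fin K, p i * x ^ (i : ℕ) := by
    intro x
    rw [hPdef, Polynomial.eval_finsetSum]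
    simp
  -- the maximum
  set v : ℕ → ℝ := fun q => (a : ℝ) + 1 + q with hv
  obtain ⟨j, hj, hjmax⟩ := Finset.exists_max_image (range K)
    (fun q => |P.eval (v q)| / G a K (v q)) ⟨0, Finset.mem_range.2 hK⟩
  rw [Finset.mem_range] at hj
  set μ : ℝ := |P.eval (v j)| / G a K (v j) with hμdef
  have hμ0 : 0 ≤ μ := div_nonneg (abs_nonneg _) (G_pos _ _ _).le
  have hPμ : ∀ q, q < K → |P.eval ((a : ℝ) + 1 + q)| ≤ μ * G a K ((a : ℝ) + 1 + q) := by
    intro q hq
    have h1 := hjmax q (Finset.mem_range.2 hq)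
    rwa [div_le_iff₀ (G_pos _ _ _)] at h1
  have hμpos : 0 < μ := by
    rcases hμ0.lt_or_eq with h | h
    · exact h
    · exfalso
      apply hPne
      have hz : ∀ q ∈ range K, P.eval (v q) = 0 := by
        intro q hq
        have h1 := hPμ q (Finset.mem_range.1 hq)
        rw [← h, zero_mul] at h1
        exact abs_eq_zero.1 (le_antisymm h1 (abs_nonneg _))
      have hinj : Set.InjOn v (range K : Finset ℕ) := by
        intro i _ j _ hij
        simp only [hv, add_right_inj, Nat.cast_inj] at hij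
        exact hij
      have hdeg' : P.degree < ((range K).card : ℕ) := by rwa [card_range]
      rw [Lagrange.eq_interpolate hinj hdeg', Lagrange.interpolate_apply]
      apply Finset.sum_eq_zero
      intro q hq
      rw [hz q hq, map_zero, zero_mul]
  -- the relation at the node
  set N : ℕ := a + 1 + j with hN
  have hNv : (N : ℝ) = v j := by simp only [hN, hv]; push_cast; ring
  have hNQ : N ≤ Q := by omega
  have hNpos : (0 : ℝ) < N := by exact_mod_cast (by omega : 0 < N)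
  have hrel : P.eval (v j) = -(t * ∑ l ∈ range (N - 1), c (N - (l + 1)) / c N *
      (((N - (l + 1) : ℕ) : ℝ) / N) ^ n *
      coeff (l + 1) ((1 - X) ^ (r * n + 1) * ψ (N - (l + 1)) *
        sub r ((N - (l + 1) : ℕ) : ℝ) P)) := by
    have h1 := hnull ⟨j, hj⟩
    simp only [← hN] at h1
    simp only [mul_add, Finset.sum_add_distrib] at h1
    rw [← hNv, heval, eq_neg_iff_add_eq_zero, ← h1]
    congr 1
    rw [Finset.mul_sum]
    simp only [SS, Finset.mul_sum]
    rw [Finset.sum_comm]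
    refine Finset.sum_congr rfl fun l _ => ?_
    rw [hPdef, ← null_sum, Finset.mul_sum, Finset.mul_sum]
    refine Finset.sum_congr rfl fun i _ => ?_
    ring
  -- bound of each term
  set X0 : ℝ := r * (n + (K : ℝ) * Q) with hX0
  have hX0pos : 0 ≤ X0 := by positivity
  set ρ : ℝ := (((Q : ℝ) - 1) / Q) ^ n with hρ
  have hρ0 : 0 ≤ ρ := by
    rw [hρ]
    apply pow_nonneg
    apply div_nonneg <;> linarith
  set z : ℝ := ((K : ℝ) + 1) * X0 * ρ with hz
  have hz0 : 0 ≤ z := by positivity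
  have hterm : ∀ l ∈ range (N - 1), |c (N - (l + 1)) / c N *
      (((N - (l + 1) : ℕ) : ℝ) / N) ^ n *
      coeff (l + 1) ((1 - X) ^ (r * n + 1) * ψ (N - (l + 1)) *
        sub r ((N - (l + 1) : ℕ) : ℝ) P)| ≤
      K * (μ * G a K (v j)) * (z ^ (l + 1) / ((l + 1).factorial : ℝ)) := by
    intro l hl
    rw [Finset.mem_range] at hl
    set y : ℕ := N - (l + 1) with hy
    have hy1 : 1 ≤ y := by omega
    have hyl : y + (l + 1) = N := by omega
    have hyr : (1 : ℝ) ≤ y := by exact_mod_cast hy1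
    have hyR : (y : ℝ) = N - ((l + 1 : ℕ) : ℝ) := by
      rw [← hyl]; push_cast; ring
    have hyQ : (y : ℝ) ≤ (Q : ℝ) - 1 := by
      have : ((y + 1 : ℕ) : ℝ) ≤ Q := by exact_mod_cast (by omega : y + 1 ≤ Q)
      push_cast at this; linarith
    have b1 : Bd (l + 1) 1 ((r * n + 1 : ℕ) : ℝ) ((1 - X : PowerSeries ℝ) ^ (r * n + 1)) :=
      Bd.one_sub_pow _ _
    have b2 := D.psib y (l + 1) hy1 (by omega)
    have b3 := sub_bound r a K (l + 1) (y : ℝ) hyr P hdeg μ hμ0 hPμ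
    have b4 := Bd.mul (by norm_num) (by positivity) (Bd.mul zero_le_one (by positivity) b1 b2) b3
    have b5 := b4 (l + 1) le_rfl
    have hc1 := D.cpos y hy1
    have hc2 := D.cpos N (by omega)
    have hcc : c y / c N ≤ 1 := by
      rw [div_le_one hc2]; exact D.cmono y N hy1 (by omega)
    have hXle : ((r * n + 1 : ℕ) : ℝ) + ((r : ℝ) - 1) * Q + ((K : ℝ) - 1) * (r * y) ≤ X0 := by
      have h1 : ((K : ℝ) - 1) * (r * y) ≤ ((K : ℝ) - 1) * (r * ((Q : ℝ) - 1)) := by
        apply mul_le_mul_of_nonneg_left _ (by linarith)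
        exact mul_le_mul_of_nonneg_left hyQ (by linarith)
      have h2 : 0 ≤ (r : ℝ) * ((K : ℝ) - 1) := mul_nonneg (by linarith) (by linarith)
      rw [hX0]
      push_cast
      nlinarith
    have hXge : 0 ≤ ((r * n + 1 : ℕ) : ℝ) + ((r : ℝ) - 1) * Q + ((K : ℝ) - 1) * (r * y) := by
      have h1 : 0 ≤ ((r : ℝ) - 1) * Q := mul_nonneg (by linarith) (by linarith)
      have h2 : 0 ≤ ((K : ℝ) - 1) * (r * y) := mul_nonneg (by linarith) (by positivity)
      have h3 : (0 : ℝ) ≤ ((r * n + 1 : ℕ) : ℝ) := Nat.cast_nonneg _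
      linarith
    have hGy : G a K (y : ℝ) ≤ ((K : ℝ) + 1) ^ (l + 1) * G a K (v j) := by
      rw [hyR, hNv]
      exact G_shifts a K (v j) (l + 1)
    have hpow : ((y : ℝ) / N) ^ n ≤ ρ ^ (l + 1) := by
      rw [hρ, ← pow_mul, mul_comm n, pow_mul]
      apply pow_le_pow_left₀ (by positivity)
      have h1 : (y : ℝ) / N ≤ 1 + ((l + 1 : ℕ) : ℝ) * (-(1 / Q)) := by
        rw [hyR, sub_div, div_self hNpos.ne']
        have h2 : ((l + 1 : ℕ) : ℝ) * (1 / Q) ≤ ((l + 1 : ℕ) : ℝ) / N := by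
          rw [mul_one_div]
          apply div_le_div_of_nonneg_left (by positivity) hNpos
          exact_mod_cast hNQ
        linarith
      have h3 : (1 : ℝ) / Q ≤ 1 := by
        rw [div_le_one (by linarith)]; exact hQr
      have h4 := one_add_mul_le_pow (a := -(1 / (Q : ℝ))) (by linarith) (l + 1)
      refine h1.trans (h4.trans (le_of_eq ?_))
      congr 1
      field_simp
      ring
    rw [abs_mul, abs_of_nonneg (by positivity : 0 ≤ c y / c N * ((y : ℝ) / N) ^ n)]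
    have hfac : (0 : ℝ) < ((l + 1).factorial : ℝ) := by exact_mod_cast (l + 1).factorial_pos
    have hG := G_pos a K (v j)
    have s1 : c y / c N * ((y : ℝ) / N) ^ n ≤ ρ ^ (l + 1) := by
      calc c y / c N * ((y : ℝ) / N) ^ n ≤ 1 * ρ ^ (l + 1) :=
            mul_le_mul hcc hpow (by positivity) zero_le_one
        _ = _ := one_mul _
    have s2 : (1 * 1 * ((K : ℝ) * (μ * G a K (y : ℝ)))) *
        ((((r * n + 1 : ℕ) : ℝ) + ((r : ℝ) - 1) * Q + ((K : ℝ) - 1) * (r * y)) ^ (l + 1) /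
          ((l + 1).factorial : ℝ)) ≤
        ((K : ℝ) * (μ * (((K : ℝ) + 1) ^ (l + 1) * G a K (v j)))) *
          (X0 ^ (l + 1) / ((l + 1).factorial : ℝ)) := by
      rw [one_mul, one_mul]
      apply mul_le_mul
      · apply mul_le_mul_of_nonneg_left _ (by linarith)
        exact mul_le_mul_of_nonneg_left hGy hμ0
      · gcongr
      · positivity
      · positivity
    calc c y / c N * ((y : ℝ) / N) ^ n * _ ≤ ρ ^ (l + 1) *
          (((K : ℝ) * (μ * (((K : ℝ) + 1) ^ (l + 1) * G a K (v j)))) *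
          (X0 ^ (l + 1) / ((l + 1).factorial : ℝ))) := by
            apply mul_le_mul s1 (b5.trans s2) (abs_nonneg _) (by positivity)
      _ = _ := by
            have hzp : z ^ (l + 1) = ((K : ℝ) + 1) ^ (l + 1) * X0 ^ (l + 1) * ρ ^ (l + 1) := by
              rw [hz, mul_pow, mul_pow]
            rw [hzp]
            generalize X0 ^ (l + 1) = x1
            ring
  have hsum : |P.eval (v j)| ≤ K * (μ * G a K (v j)) * (3 / 2 * z) := by
    rw [hrel, abs_neg, abs_mul, abs_of_nonneg ht0]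
    have hz1 : z ≤ 1 / 2 := by
      have h1 : z * 2 ≤ 2 * (r : ℝ) * K * (K + 1) * (n + (K : ℝ) * Q) * ρ := by
        rw [hz, hX0]
        have h2 : ((K : ℝ) + 1) ≤ K * (K + 1) := by nlinarith
        have h3 : 0 ≤ (r : ℝ) * (n + (K : ℝ) * Q) * ρ := by positivity
        nlinarith
      linarith
    have h1 : ∑ l ∈ range (N - 1), z ^ (l + 1) / ((l + 1).factorial : ℝ) ≤ 3 / 2 * z := by
      have h2 := Real.sum_le_exp_of_nonneg hz0 (N - 1 + 1)
      rw [Finset.sum_range_succ'] at h2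
      simp only [pow_zero, Nat.factorial_zero, Nat.cast_one, div_one] at h2
      have h3 := Real.abs_exp_sub_one_sub_id_le (x := z) (by
        rw [abs_of_nonneg hz0]; linarith)
      have h4 := (abs_le.1 h3).2
      nlinarith
    have h5 : |∑ l ∈ range (N - 1), c (N - (l + 1)) / c N *
      (((N - (l + 1) : ℕ) : ℝ) / N) ^ n *
      coeff (l + 1) ((1 - X) ^ (r * n + 1) * ψ (N - (l + 1)) *
        sub r ((N - (l + 1) : ℕ) : ℝ) P)| ≤ K * (μ * G a K (v j)) * (3 / 2 * z) := by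
      refine (Finset.abs_sum_le_sum_abs _ _).trans ((Finset.sum_le_sum hterm).trans ?_)
      rw [← Finset.mul_sum]
      apply mul_le_mul_of_nonneg_left h1
      have := G_pos a K (v j)
      positivity
    calc t * _ ≤ 1 * (K * (μ * G a K (v j)) * (3 / 2 * z)) :=
          mul_le_mul ht1 h5 (abs_nonneg _) zero_le_one
      _ = _ := one_mul _
  have hfin : (K : ℝ) * (3 / 2 * z) ≤ 3 / 4 := by
    have h1 : (K : ℝ) * z * 2 = 2 * (r : ℝ) * K * (K + 1) * (n + (K : ℝ) * Q) * ρ := by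
      rw [hz, hX0]
      ring
    linarith
  have hGj := G_pos a K (v j)
  have hPj : |P.eval (v j)| = μ * G a K (v j) := by
    rw [hμdef, div_mul_cancel₀ _ hGj.ne']
  rw [hPj] at hsum
  have hpos : 0 < μ * G a K (v j) := mul_pos hμpos hGj
  nlinarith

end Pool.Agent.H48.TP
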