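import Pool.Agent.H48.TP.Gen
import Pool.Agent.H48.TP.Sol

/-!
# The eigenseries and the explicit formula
-/

set_option autoImplicit false

namespace Pool.Agent.H48.TP

open PowerSeries Finset

/-- coefficients of the eigenseries -/
noncomputable def TT (s : ℕ) (y : ℝ) : ℕ → ℝ
  | 0 => 1
  | n + 1 => y / ((n : ℝ) + 1) *
      ∑ k : Fin (n + 1), coeff ((k : ℕ) + 1) ((1 - X : PowerSeries ℝ) ^ s) * TT s y (n - k)
termination_by n => n
decreasing_by omega

theorem TT_zero (s : ℕ) (y : ℝ) : TT s y 0 = 1 := by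
  rw [TT]

theorem TT_succ (s : ℕ) (y : ℝ) (n : ℕ) : TT s y (n + 1) = y / ((n : ℝ) + 1) *
    ∑ k ∈ range (n + 1), coeff (k + 1) ((1 - X : PowerSeries ℝ) ^ s) * TT s y (n - k) := by
  rw [TT, Finset.sum_range]

/-- the eigenseries -/
noncomputable def psi (s : ℕ) (y : ℝ) : PowerSeries ℝ := PowerSeries.mk (TT s y)

theorem coeff_psi (s : ℕ) (y : ℝ) (n : ℕ) : coeff n (psi s y) = TT s y n := by
  rw [psi, PowerSeries.coeff_mk]

theorem dd_psi (s : ℕ) (y : ℝ) : dd (psi s y) = C y * (((1 - X) ^ s - 1) * psi s y) := by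
  ext n
  rw [coeff_dd, PowerSeries.coeff_C_mul, coeff_psi, PowerSeries.coeff_mul,
    Finset.Nat.sum_antidiagonal_eq_sum_range_succ_mk]
  rcases n with _ | n
  · simp
  · rw [Finset.sum_range_succ', TT_succ]
    have h0 : coeff 0 ((1 - X : PowerSeries ℝ) ^ s - 1) = 0 := by
      rw [map_sub, coeff_zero_one_sub_pow, PowerSeries.coeff_zero_one, sub_self]
    simp only [h0, zero_mul, add_zero]
    have h1 : ∑ k ∈ range (n + 1), coeff (k + 1) ((1 - X : PowerSeries ℝ) ^ s - 1) *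
        coeff (n + 1 - (k + 1)) (psi s y) =
        ∑ k ∈ range (n + 1), coeff (k + 1) ((1 - X : PowerSeries ℝ) ^ s) * TT s y (n - k) := by
      refine Finset.sum_congr rfl fun k _ => ?_
      rw [map_sub, PowerSeries.coeff_one, if_neg (Nat.succ_ne_zero k), sub_zero, coeff_psi,
        Nat.add_sub_add_right]
    rw [h1]
    push_cast
    have : (n : ℝ) + 1 ≠ 0 := by positivity
    field_simp

theorem eigen (s k : ℕ) :
    J ^ s * dd (X ^ k * psi s k) = C (k : ℝ) * (X ^ k * psi s k) := by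
  have h1 : dd (X ^ k * psi s k) = (1 - X) ^ s * (C (k : ℝ) * (X ^ k * psi s k)) := by
    rw [dd_mul, dd_X_pow, dd_psi]
    ring
  rw [h1, ← mul_assoc, J_pow_mul, one_mul]

/-- the leading coefficients -/
noncomputable def cc (s : ℕ) : ℕ → ℝ
  | 0 => 0
  | N + 1 => 1 - ∑ k : Fin N, cc s ((k : ℕ) + 1) * TT s (((k : ℕ) + 1 : ℕ) : ℝ) (N - k)
termination_by n => n
decreasing_by omega

theorem cc_sum (s N : ℕ) :
    ∑ k ∈ range (N + 1), cc s (k + 1) * TT s ((k + 1 : ℕ) : ℝ) (N - k) = 1 := by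
  rw [Finset.sum_range_succ, Nat.sub_self, TT_zero, mul_one]
  have h1 : cc s (N + 1) =
      1 - ∑ k ∈ range N, cc s (k + 1) * TT s ((k + 1 : ℕ) : ℝ) (N - k) := by
    rw [cc, Finset.sum_range]
  rw [h1]
  ring

theorem cc_one (s : ℕ) : cc s 1 = 1 := by
  rw [cc]
  simp

/-- agreement up to a degree -/
def Agree (Q : ℕ) (f g : PowerSeries ℝ) : Prop := ∀ N, N ≤ Q → coeff N f = coeff N g

theorem Agree.mul_left {Q : ℕ} {f g : PowerSeries ℝ} (h : Agree Q f g) (a : PowerSeries ℝ) :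
    Agree Q (a * f) (a * g) := by
  intro N hN
  rw [PowerSeries.coeff_mul, PowerSeries.coeff_mul]
  refine Finset.sum_congr rfl fun p hp => ?_
  rw [HasAntidiagonal.mem_antidiagonal] at hp
  rw [h p.2 (by omega)]

theorem Agree.dd {Q : ℕ} {f g : PowerSeries ℝ} (h : Agree Q f g) : Agree Q (dd f) (dd g) := by
  intro N hN
  rw [coeff_dd, coeff_dd, h N hN]

/-- the truncated expansion -/
noncomputable def V (s Q m : ℕ) : PowerSeries ℝ :=
  ∑ k ∈ range Q, C (cc s (k + 1) * ((k + 1 : ℕ) : ℝ) ^ m) *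
    (X ^ (k + 1) * psi s ((k + 1 : ℕ) : ℝ))

theorem V_succ (s Q m : ℕ) : V s Q (m + 1) = J ^ s * dd (V s Q m) := by
  unfold V
  rw [dd_sum, Finset.mul_sum]
  refine Finset.sum_congr rfl fun k _ => ?_
  have h := eigen s (k + 1)
  rw [dd_C_mul, mul_left_comm (J ^ s), h, pow_succ, ← mul_assoc (cc s (k + 1)), map_mul, mul_assoc]

theorem coeff_V (s Q m N : ℕ) (hN : N ≤ Q) (a : PowerSeries ℝ) : coeff N (a * V s Q m) =
    ∑ k ∈ range N, cc s (k + 1) * ((k + 1 : ℕ) : ℝ) ^ m *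
      coeff (N - (k + 1)) (a * psi s ((k + 1 : ℕ) : ℝ)) := by
  unfold V
  rw [Finset.mul_sum, map_sum]
  have h1 : ∀ k, coeff N (a * (C (cc s (k + 1) * ((k + 1 : ℕ) : ℝ) ^ m) *
      (X ^ (k + 1) * psi s ((k + 1 : ℕ) : ℝ)))) =
      if k < N then cc s (k + 1) * ((k + 1 : ℕ) : ℝ) ^ m *
        coeff (N - (k + 1)) (a * psi s ((k + 1 : ℕ) : ℝ)) else 0 := by
    intro k
    have e : a * (C (cc s (k + 1) * ((k + 1 : ℕ) : ℝ) ^ m) *
      (X ^ (k + 1) * psi s ((k + 1 : ℕ) : ℝ))) = C (cc s (k + 1) * ((k + 1 : ℕ) : ℝ) ^ m) *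
      (X ^ (k + 1) * (a * psi s ((k + 1 : ℕ) : ℝ))) := by ring
    rw [e, PowerSeries.coeff_C_mul, PowerSeries.coeff_X_pow_mul']
    by_cases h : k < N
    · rw [if_pos h, if_pos (by omega)]
    · rw [if_neg h, if_neg (by omega), mul_zero]
  rw [Finset.sum_congr rfl fun k _ => h1 k, ← Finset.sum_filter]
  apply Finset.sum_congr _ fun _ _ => rfl
  ext k
  simp only [Finset.mem_filter, Finset.mem_range]
  omega

theorem agree_zero (s Q : ℕ) : Agree Q (W s 0) (V s Q 0) := by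
  intro N hN
  have h1 := coeff_V s Q 0 N hN 1
  rw [one_mul] at h1
  rw [h1, W]
  rcases N with _ | N
  · simp
  · rw [PowerSeries.coeff_succ_X_mul, J, PowerSeries.coeff_mk, ← cc_sum s N]
    refine Finset.sum_congr rfl fun k _ => ?_
    rw [pow_zero, mul_one, one_mul, coeff_psi, Nat.add_sub_add_right]

theorem agree (s Q m : ℕ) : Agree Q (W s m) (V s Q m) := by
  induction m with
  | zero => exact agree_zero s Q
  | succ m ih =>
    rw [W, V_succ]
    exact (ih.dd).mul_left _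

/-- the explicit formula -/
theorem coeff_U_eq (s m N : ℕ) :
    coeff N (U s m) = uu (s + 1) (cc s) (fun y => psi s (y : ℝ)) m N := by
  have h1 := (agree s N m).mul_left ((1 - X) ^ ((s + 1) * m + 1)) N le_rfl
  rw [U, h1, coeff_V s N m N le_rfl, uu, ← Finset.sum_range_reflect]
  refine Finset.sum_congr rfl fun l hl => ?_
  rw [Finset.mem_range] at hl
  have e1 : N - 1 - l + 1 = N - l := by omega
  have e2 : N - (N - 1 - l + 1) = l := by omega
  rw [e2, e1]

theorem coeff_W_eq (s m N : ℕ) : coeff N (W s m) = ∑ k ∈ range N,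
    cc s (k + 1) * ((k + 1 : ℕ) : ℝ) ^ m * TT s ((k + 1 : ℕ) : ℝ) (N - (k + 1)) := by
  have h1 := coeff_V s N m N le_rfl 1
  rw [one_mul] at h1
  rw [agree s N m N le_rfl, h1]
  refine Finset.sum_congr rfl fun l _ => ?_
  rw [one_mul, coeff_psi]

end Pool.Agent.H48.TP
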