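import Pool.Agent.H48.TP.Run

/-!
# Kernel computation: elimination on the first rows for `r = 1`, twenty-four columns
-/

set_option autoImplicit false

namespace Pool.Agent.H48.TP

theorem run1 : runK 1 350 1 (1 :: List.replicate 23 0) [] = true := by decide +kernel

/-- the numerical condition -/
theorem cnd1 : ∀ K, K < 25 → 1 ≤ K →
    2 * 1 * K * (K + 1) * (327 + K * K) * (K - 1) ^ 327 ≤ K ^ 327 := by decide +kernel

end Pool.Agent.H48.TP
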