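import Pool.Agent.H48.TP.Run

/-!
# Kernel computations: elimination on the first rows, sixteen columns
-/

set_option autoImplicit false

namespace Pool.Agent.H48.TP

theorem run2 : runK 2 236 1 (1 :: List.replicate 15 0) [] = true := by decide +kernel
theorem run3 : runK 3 236 1 (1 :: List.replicate 15 0) [] = true := by decide +kernel
theorem run4 : runK 4 236 1 (1 :: List.replicate 15 0) [] = true := by decide +kernel
theorem run5 : runK 5 236 1 (1 :: List.replicate 15 0) [] = true := by decide +kernel
theorem run6 : runK 6 236 1 (1 :: List.replicate 15 0) [] = true := by decide +kernel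

/-- the numerical condition -/
theorem cnd2 : ∀ r, r < 7 → ∀ K, K < 17 → 1 ≤ K →
    2 * r * K * (K + 1) * (221 + K * K) * (K - 1) ^ 221 ≤ K ^ 221 := by decide +kernel

end Pool.Agent.H48.TP
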