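import Mathlib.Data.Nat.Notation

/-!
# Neville elimination with forced evaluation
-/

set_option autoImplicit false

namespace Pool.Agent.H48.TP

/-- forces the evaluation of a number -/
def force (x : ℕ) (k : ℕ → Bool) : Bool := match x with
  | 0 => k 0
  | m + 1 => k (m + 1)

/-- elimination of two rows -/
def elimK (a b : ℕ) : List ℕ → List ℕ → (List ℕ → Bool) → Bool
  | [], _, k => k []
  | _ :: _, [], _ => false
  | s :: us, t :: vs, k => cond (Nat.ble (b * s) (a * t))
      (force (a * t - b * s) fun x => elimK a b us vs fun l => k (x :: l)) false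

/-- the gcd of a list -/
def gcdK : List ℕ → ℕ → (ℕ → Bool) → Bool
  | [], g, k => k g
  | s :: us, g, k => force (Nat.gcd s g) fun g' => gcdK us g' k

/-- division -/
def divK (g : ℕ) : List ℕ → (List ℕ → Bool) → Bool
  | [], k => k []
  | s :: us, k => force (s / g) fun x => divK g us fun l => k (x :: l)

/-- normalisation -/
def nrmK (l : List ℕ) (k : List ℕ → Bool) : Bool :=
  gcdK l 0 fun g => match g with
    | 0 => k l
    | g + 1 => divK (g + 1) l k

/-- one new row through all stages -/
def stepK : List (List ℕ) → List ℕ → (List (List ℕ) → Bool) → Bool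
  | _, [], k => k []
  | [], b :: vs, k => cond (Nat.ble 1 b) (k [b :: vs]) false
  | [] :: _, _ :: _, _ => false
  | (a :: us) :: rest, b :: vs, k => cond (Nat.ble 1 b)
      (elimK a b us vs fun e => nrmK e fun e' => stepK rest e' fun rest' =>
        k ((b :: vs) :: rest')) false

/-- the next row of the triangle -/
def nextK (r n : ℕ) : ℕ → ℕ → List ℕ → (List ℕ → Bool) → Bool
  | _, _, [], k => k []
  | j, p, x :: xs, k => force ((j + 2) * x + (r * n - j) * p) fun y =>
      nextK r n (j + 1) x xs fun l => k (y :: l)

/-- the loop -/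
def runK (r : ℕ) : ℕ → ℕ → List ℕ → List (List ℕ) → Bool
  | 0, _, _, _ => true
  | f + 1, n, row, st => stepK st row fun st' =>
      match row with
      | [] => true
      | p :: xs => nextK r n 0 p xs fun l => runK r f (n + 1) (p :: l) st'

end Pool.Agent.H48.TP
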