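import Pool.Agent.H48.TP.Run

/-!
# Elimination in segments: the rows are computed up to row `s`, the elimination starts there
-/

set_option autoImplicit false

namespace Pool.Agent.H48.TP

/-- the rows only -/
def rowsK (r : ℕ) : ℕ → ℕ → List ℕ → (List ℕ → Bool) → Bool
  | 0, _, row, k => k row
  | s + 1, n, row, k =>
      match row with
      | [] => false
      | p :: xs => nextK r n 0 p xs fun l => rowsK r s (n + 1) (p :: l) k

/-- elimination of `f` rows, starting at row `s` -/
def segK (r s f c : ℕ) : Bool :=
  rowsK r s 1 (1 :: List.replicate c 0) fun row => runK r f (s + 1) row []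

end Pool.Agent.H48.TP
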